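import Pool.Agent.N825.WI.Def

/-! Elementary properties of odd places. -/

namespace Pool.Agent.N825.WI

namespace OddPlace

variable {F L : Type} [Field F] [Field L] {f : F →+* L} (P : OddPlace f)

lemma ord_one : P.ord 1 = 0 := by
  have := P.ord_mul 1 1 one_ne_zero one_ne_zero
  rw [mul_one] at this; omega

lemma ord_inv {x : L} (hx : x ≠ 0) : P.ord x⁻¹ = -P.ord x := by
  have := P.ord_mul x x⁻¹ hx (inv_ne_zero hx)
  rw [mul_inv_cancel₀ hx, ord_one] at this; omega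

lemma ord_neg_one : P.ord (-1) = 0 := by
  have := P.ord_mul (-1) (-1) (by simp) (by simp)
  rw [neg_mul_neg, one_mul, ord_one] at this; omega

lemma ord_neg {x : L} (hx : x ≠ 0) : P.ord (-x) = P.ord x := by
  have := P.ord_mul (-1) x (by simp) hx
  rw [neg_one_mul, ord_neg_one] at this; omega

lemma ord_pow {x : L} (hx : x ≠ 0) (n : ℕ) : P.ord (x ^ n) = n * P.ord x := by
  induction n with
  | zero => simp [ord_one]
  | succ n ih =>
    rw [pow_succ, P.ord_mul _ _ (pow_ne_zero _ hx) hx, ih]; push_cast; ring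

lemma ord_zpow {x : L} (hx : x ≠ 0) (n : ℤ) : P.ord (x ^ n) = n * P.ord x := by
  obtain ⟨m, rfl | rfl⟩ := n.eq_nat_or_neg
  · rw [zpow_natCast, ord_pow P hx]
  · rw [zpow_neg, zpow_natCast, ord_inv P (pow_ne_zero _ hx), ord_pow P hx]; ring

lemma ord_πz (n : ℤ) : P.ord (P.π ^ n) = n := by
  rw [ord_zpow P P.π_ne, P.ord_π, mul_one]

lemma πz_ne (n : ℤ) : P.π ^ n ≠ 0 := zpow_ne_zero _ P.π_ne

lemma memO {x : L} (h : x = 0 ∨ 0 ≤ P.ord x) : x ∈ P.O := by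
  by_cases hx : x = 0
  · rw [hx]; exact P.O.zero_mem
  · exact (P.mem_O x hx).2 (h.resolve_left hx)

lemma ord_f {a : F} (ha : a ≠ 0) : P.ord (f a) = 0 := by
  have h1 := (P.mem_O _ (by simpa using ha)).1 (P.memF a)
  have h2 := (P.mem_O _ (by simpa using ha)).1 (P.memF a⁻¹)
  rw [map_inv₀, ord_inv P (by simpa using ha)] at h2
  omega

lemma ne_zero_of_res {x : P.O} (h : P.res x ≠ 0) : (x : L) ≠ 0 := by
  intro h0
  have : x = 0 := Subtype.ext h0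
  exact h (by rw [this, map_zero])

lemma res_ne_zero {x : P.O} (h : (x : L) ≠ 0) (ho : P.ord (x : L) = 0) : P.res x ≠ 0 := by
  intro h0
  have := (P.res_eq_zero x h).1 h0
  omega

lemma ord_of_res {x : P.O} (h : P.res x ≠ 0) : P.ord (x : L) = 0 := by
  have hx := P.ne_zero_of_res h
  have h1 := (P.mem_O _ hx).1 x.2
  by_contra hne
  exact h ((P.res_eq_zero x hx).2 (lt_of_le_of_ne h1 (Ne.symm hne)))

lemma res_zero_of_pos {x : L} (hx : x ∈ P.O) (h : 0 < P.ord x) : P.res ⟨x, hx⟩ = 0 := by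
  by_cases h0 : x = 0
  · subst h0
    exact map_zero P.res
  · exact (P.res_eq_zero ⟨x, hx⟩ h0).2 h

end OddPlace

/-- A nonzero sum of two squares (of elements not both zero). -/
def IsD2 {L : Type} [Field L] (s : L) : Prop := ∃ a b : L, (a ≠ 0 ∨ b ≠ 0) ∧ s = a ^ 2 + b ^ 2

lemma FReal.add_sq {L : Type} [Field L] (h : FReal L) {a b : L} (hab : a ≠ 0 ∨ b ≠ 0) :
    a ^ 2 + b ^ 2 ≠ 0 := by
  intro h0
  have := h 2 ![a, b] (by simpa [Fin.sum_univ_two] using h0)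
  have h1 := this 0
  have h2 := this 1
  simp at h1 h2
  tauto

lemma IsD2.ne_zero {L : Type} [Field L] (h : FReal L) {s : L} (hs : IsD2 s) : s ≠ 0 := by
  obtain ⟨a, b, hab, rfl⟩ := hs
  exact h.add_sq hab

/-- Sums of two squares have even order and reduce to sums of two squares. -/
lemma OddPlace.d2 {F L : Type} [Field F] [Field L] {f : F →+* L} (P : OddPlace f)
    (hκ : FReal P.κ) {a b : L} (h : a ≠ 0 ∨ b ≠ 0) :
    ∃ (n : ℤ) (u : P.O), IsD2 (P.res u) ∧ P.res u ≠ 0 ∧ a ^ 2 + b ^ 2 = P.π ^ (2 * n) * (u : L) ∧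
      (a ≠ 0 → n ≤ P.ord a) ∧ (b ≠ 0 → n ≤ P.ord b) ∧
      ((a ≠ 0 ∧ n = P.ord a) ∨ (b ≠ 0 ∧ n = P.ord b)) := by
  have key : ∃ n : ℤ, (a ≠ 0 → n ≤ P.ord a) ∧ (b ≠ 0 → n ≤ P.ord b) ∧
      ((a ≠ 0 ∧ n = P.ord a) ∨ (b ≠ 0 ∧ n = P.ord b)) := by
    by_cases ha : a = 0
    · have hb : b ≠ 0 := by tauto
      exact ⟨P.ord b, fun h => absurd ha h, fun _ => le_rfl, Or.inr ⟨hb, rfl⟩⟩
    · by_cases hb : b = 0
      · exact ⟨P.ord a, fun _ => le_rfl, fun h => absurd hb h, Or.inl ⟨ha, rfl⟩⟩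
      · rcases le_total (P.ord a) (P.ord b) with hle | hle
        · exact ⟨P.ord a, fun _ => le_rfl, fun _ => hle, Or.inl ⟨ha, rfl⟩⟩
        · exact ⟨P.ord b, fun _ => hle, fun _ => le_rfl, Or.inr ⟨hb, rfl⟩⟩
  obtain ⟨n, ha, hb, hn⟩ := key
  have hord : ∀ x : L, x ≠ 0 → P.ord (x * P.π ^ (-n)) = P.ord x - n := by
    intro x hx
    rw [P.ord_mul _ _ hx (P.πz_ne _), P.ord_πz]; ring
  have hmem : ∀ x : L, (x ≠ 0 → n ≤ P.ord x) → x * P.π ^ (-n) ∈ P.O := by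
    intro x hx
    by_cases h0 : x = 0
    · rw [h0, zero_mul]; exact P.O.zero_mem
    · exact P.memO (Or.inr (by rw [hord x h0]; have := hx h0; omega))
  set a' : P.O := ⟨a * P.π ^ (-n), hmem a ha⟩ with ha'
  set b' : P.O := ⟨b * P.π ^ (-n), hmem b hb⟩ with hb'
  have hne : P.res a' ≠ 0 ∨ P.res b' ≠ 0 := by
    rcases hn with ⟨h0, hn⟩ | ⟨h0, hn⟩
    · left
      refine P.res_ne_zero (x := a') (mul_ne_zero h0 (P.πz_ne _)) ?_
      show P.ord (a * P.π ^ (-n)) = 0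
      rw [hord a h0]; omega
    · right
      refine P.res_ne_zero (x := b') (mul_ne_zero h0 (P.πz_ne _)) ?_
      show P.ord (b * P.π ^ (-n)) = 0
      rw [hord b h0]; omega
  refine ⟨n, a' ^ 2 + b' ^ 2, ⟨P.res a', P.res b', hne, by simp⟩, ?_, ?_, ha, hb, hn⟩
  · rw [map_add, map_pow, map_pow]; exact hκ.add_sq hne
  · have hπ := P.π_ne
    show a ^ 2 + b ^ 2 = P.π ^ (2 * n) * ((a * P.π ^ (-n)) ^ 2 + (b * P.π ^ (-n)) ^ 2)
    have h1 : P.π ^ (2 * n) * (P.π ^ (-n)) ^ 2 = 1 := by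
      rw [← zpow_natCast, ← zpow_mul, ← zpow_add₀ hπ]
      have : 2 * n + -n * ((2 : ℕ) : ℤ) = 0 := by push_cast; ring
      rw [this, zpow_zero]
    calc a ^ 2 + b ^ 2 = (P.π ^ (2 * n) * (P.π ^ (-n)) ^ 2) * (a ^ 2 + b ^ 2) := by
          rw [h1, one_mul]
      _ = _ := by ring

lemma OddPlace.isD2 {F L : Type} [Field F] [Field L] {f : F →+* L} (P : OddPlace f)
    (hκ : FReal P.κ) {s : L} (h : IsD2 s) :
    ∃ (n : ℤ) (u : P.O), IsD2 (P.res u) ∧ P.res u ≠ 0 ∧ s = P.π ^ (2 * n) * (u : L) := by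
  obtain ⟨a, b, hab, rfl⟩ := h
  obtain ⟨n, u, h1, h2, h3, -⟩ := P.d2 hκ hab
  exact ⟨n, u, h1, h2, h3⟩

end Pool.Agent.N825.WI
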