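import Mathlib

/-! Odd places of function fields and weakly isotropic forms: definitions and statements. -/

namespace Pool.Agent.N825.WI

/-- A homomorphism of fields of finite odd degree. -/
def OddHom {F L : Type} [Field F] [Field L] (f : F →+* L) : Prop :=
  @Module.Finite F L _ _ f.toAlgebra.toModule ∧
    Odd (@Module.finrank F L _ _ f.toAlgebra.toModule)

/-- `-1` is not a sum of squares: a sum of squares vanishes only if all terms vanish. -/
def FReal (L : Type) [Field L] : Prop :=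
  ∀ (n : ℕ) (x : Fin n → L), ∑ i, x i ^ 2 = 0 → ∀ i, x i = 0

/-- A discrete valuation `ord` (with valuation ring `O`, uniformizer `π`, and a homomorphism `res`
from `O` to a field `κ` whose kernel is the maximal ideal) on the field `L`, trivial on the subfield
`f F`, such that `κ` is a finite extension of `F` of odd degree. (`ord 0` has no meaning.) -/
structure OddPlace {F L : Type} [Field F] [Field L] (f : F →+* L) where
  /-- the residue field -/
  κ : Type
  /-- it is a field -/
  fieldκ : Field κ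
  /-- the discrete valuation -/
  ord : L → ℤ
  ord_mul : ∀ x y : L, x ≠ 0 → y ≠ 0 → ord (x * y) = ord x + ord y
  /-- the valuation ring -/
  O : Subring L
  mem_O : ∀ x : L, x ≠ 0 → (x ∈ O ↔ 0 ≤ ord x)
  /-- a uniformizer -/
  π : L
  π_ne : π ≠ 0
  ord_π : ord π = 1
  /-- the reduction map -/
  res : O →+* κ
  res_eq_zero : ∀ x : O, (x : L) ≠ 0 → (res x = 0 ↔ 0 < ord (x : L))
  /-- the constants embed in the residue field -/
  j : F →+* κ
  memF : ∀ a : F, f a ∈ O
  res_f : ∀ a : F, res ⟨f a, memF a⟩ = j a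
  odd : OddHom j

attribute [instance] OddPlace.fieldκ

/-- The place of a maximal ideal of a Dedekind domain with odd residue degree. -/
def S_PP : Prop :=
  ∀ (F S L : Type) [Field F] [CommRing S] [IsDomain S] [IsDedekindDomain S] [Field L]
    [Algebra S L] [IsFractionRing S L] (g : F →+* S) (P : Ideal S) [P.IsMaximal], P ≠ ⊥ →
    @OddHom F (S ⧸ P) _ (Ideal.Quotient.field P) ((Ideal.Quotient.mk P).comp g) →
    ∃ pl : OddPlace ((algebraMap S L).comp g),
      ∀ x : S, x ≠ 0 → ∀ n : ℕ, ((n : ℤ) ≤ pl.ord (algebraMap S L x) ↔ x ∈ P ^ n)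

/-- Over every rational point of the line there is an odd place with odd ramification index. -/
def S_OVER : Prop :=
  ∀ (F L : Type) [Field F] [CharZero F] [Field L] (f : RatFunc F →+* L), OddHom f → ∀ a : F,
    ∃ P : OddPlace (f.comp RatFunc.C),
      0 < P.ord (f (RatFunc.X - RatFunc.C a)) ∧ Odd (P.ord (f (RatFunc.X - RatFunc.C a)))

/-- Parity of the norm at a prime of odd degree. -/
def S_NORM : Prop :=
  ∀ (F L : Type) [Field F] [CharZero F] [Field L] (f : RatFunc F →+* L), OddHom f →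
    ∀ (g : L), g ≠ 0 → ∀ (p : Polynomial F), p.Monic → Irreducible p → Odd p.natDegree →
    ∀ c : ℤ, (∀ P : OddPlace (f.comp RatFunc.C),
        0 < P.ord (f (algebraMap (Polynomial F) (RatFunc F) p)) →
        Even (P.ord g + c * P.ord (f (algebraMap (Polynomial F) (RatFunc F) p)))) →
    ∀ A B : Polynomial F, A ≠ 0 → B ≠ 0 →
      algebraMap (Polynomial F) (RatFunc F) A =
        algebraMap (Polynomial F) (RatFunc F) B * @Algebra.norm (RatFunc F) L _ _ f.toAlgebra g →
      Even ((multiplicity p A : ℤ) + multiplicity p B + c)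

/-- The parity lemma: some odd place where `g` and the pole order of `X` differ. -/
def S_PAR : Prop :=
  ∀ (F L : Type) [Field F] [CharZero F] [Field L] (f : RatFunc F →+* L), OddHom f →
    ∀ (g : L), g ≠ 0 → ∃ P : OddPlace (f.comp RatFunc.C),
      P.ord g + min 0 (P.ord (f RatFunc.X)) ≠ 0

/-- Number fields of odd degree. -/
def S_Q : Prop :=
  ∀ (L : Type) [Field L] (f : ℚ →+* L), OddHom f →
    FReal L ∧ ∀ a b c d u v : L, 3 * (a ^ 2 + b ^ 2) * u ^ 2 = (c ^ 2 + d ^ 2) * v ^ 2 →
      (c ^ 2 + d ^ 2) * v ^ 2 = 0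

/-- The form `∑ q i * y i ^ 2` restricted to the hyperplane `∑ w i * y i = 0` is weakly
isotropic. -/
def WIker {L : Type} [Field L] {ι : Type} [Fintype ι] (q w : ι → L) : Prop :=
  ∃ (n : ℕ) (y : Fin n → ι → L), y ≠ 0 ∧ (∀ k, ∑ i, w i * y k i = 0) ∧
    ∑ k, ∑ i, q i * y k i ^ 2 = 0

/-- Reduction of weak isotropy at a discrete place, all coefficients of even order. -/
def S_RED : Prop :=
  ∀ (F L : Type) [Field F] [Field L] (f : F →+* L) (P : OddPlace f) (ι : Type) [Fintype ι]
    (q w : ι → L) (n : ι → ℤ) (u : ι → P.O), (∀ i, P.res (u i) ≠ 0) →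
    (∀ i, q i = P.π ^ (2 * n i) * (u i : L)) → w ≠ 0 → WIker q w →
    ∃ w' : ι → P.κ, w' ≠ 0 ∧
      (∀ i j, w i ≠ 0 → (w j = 0 ∨ P.ord (w i) - n i < P.ord (w j) - n j) → w' j = 0) ∧
      WIker (fun i => P.res (u i)) w'

/-- Reduction of weak isotropy at a discrete place, with one further coefficient of odd order on
which the linear form vanishes. -/
def S_REDO : Prop :=
  ∀ (F L : Type) [Field F] [Field L] (f : F →+* L) (P : OddPlace f), FReal P.κ →
    ∀ (ι : Type) [Fintype ι] (q₀ : L), q₀ ≠ 0 → Odd (P.ord q₀) →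
    ∀ (q w : ι → L) (n : ι → ℤ) (u : ι → P.O), (∀ i, P.res (u i) ≠ 0) →
    (∀ i, q i = P.π ^ (2 * n i) * (u i : L)) → w ≠ 0 →
    ∀ (m : ℕ) (y₀ : Fin m → L) (y : Fin m → ι → L), (y₀ ≠ 0 ∨ y ≠ 0) →
      (∀ k, ∑ i, w i * y k i = 0) → ∑ k, (q₀ * y₀ k ^ 2 + ∑ i, q i * y k i ^ 2) = 0 →
    ∃ w' : ι → P.κ, w' ≠ 0 ∧ WIker (fun i => P.res (u i)) w'

end Pool.Agent.N825.WI
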