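import Pool.Agent.N825.WI.Main

/-! Elements of even order at a place and the descent steps. -/

namespace Pool.Agent.N825.WI

/-- `q = π^(2n) u`, `u` a unit with residue `ρ`. -/
def Ev {F L : Type} [Field F] [Field L] {f : F →+* L} (P : OddPlace f) (q : L) (n : ℤ) (ρ : P.κ) :
    Prop :=
  ρ ≠ 0 ∧ ∃ u : P.O, P.res u = ρ ∧ q = P.π ^ (2 * n) * (u : L)

section

variable {F L : Type} [Field F] [Field L] {f : F →+* L} {P : OddPlace f}

lemma Ev.mul {q q' : L} {n n' : ℤ} {ρ ρ' : P.κ} (h : Ev P q n ρ) (h' : Ev P q' n' ρ') :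
    Ev P (q * q') (n + n') (ρ * ρ') := by
  obtain ⟨h0, u, hu, rfl⟩ := h
  obtain ⟨h0', u', hu', rfl⟩ := h'
  refine ⟨mul_ne_zero h0 h0', u * u', by rw [map_mul, hu, hu'], ?_⟩
  have : P.π ^ (2 * (n + n')) = P.π ^ (2 * n) * P.π ^ (2 * n') := by
    rw [← zpow_add₀ P.π_ne]; congr 1; ring
  rw [this]; push_cast; ring

lemma Ev.neg {q : L} {n : ℤ} {ρ : P.κ} (h : Ev P q n ρ) : Ev P (-q) n (-ρ) := by
  obtain ⟨h0, u, hu, rfl⟩ := h
  exact ⟨neg_ne_zero.2 h0, -u, by rw [map_neg, hu], by push_cast; ring⟩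

lemma Ev.unit {x : P.O} {ρ : P.κ} (hx : P.res x = ρ) (h : ρ ≠ 0) : Ev P (x : L) 0 ρ :=
  ⟨h, x, hx, by simp⟩

lemma Ev.const {a : F} (h : a ≠ 0) : Ev P (f a) 0 (P.j a) :=
  ⟨by simpa using h, ⟨f a, P.memF a⟩, P.res_f a, by simp⟩

lemma Ev.congr {q : L} {n : ℤ} {ρ : P.κ} (h : Ev P q n ρ) {q' : L} {n' : ℤ} {ρ' : P.κ}
    (h1 : q' = q) (h2 : n' = n) (h3 : ρ' = ρ) : Ev P q' n' ρ' := by
  subst h1 h2 h3; exact h

lemma Ev.ne_zero {q : L} {n : ℤ} {ρ : P.κ} (h : Ev P q n ρ) : q ≠ 0 := by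
  obtain ⟨h0, u, hu, rfl⟩ := h
  refine mul_ne_zero (P.πz_ne _) (P.ne_zero_of_res ?_)
  rw [hu]; exact h0

lemma Ev.ord {q : L} {n : ℤ} {ρ : P.κ} (h : Ev P q n ρ) : P.ord q = 2 * n := by
  obtain ⟨h0, u, hu, rfl⟩ := h
  have hu0 : P.res u ≠ 0 := by rw [hu]; exact h0
  rw [P.ord_mul _ _ (P.πz_ne _) (P.ne_zero_of_res hu0), P.ord_πz, P.ord_of_res hu0, add_zero]

lemma ev_d2 (hκ : FReal P.κ) {s : L} (h : IsD2 s) : ∃ (n : ℤ) (σ : P.κ), IsD2 σ ∧ Ev P s n σ := by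
  obtain ⟨n, u, h1, h2, h3⟩ := P.isD2 hκ h
  exact ⟨n, P.res u, h1, h2, u, rfl, h3⟩

/-- Reduction, all coefficients of even order. -/
lemma red' (hR : S_RED) {ι : Type} [Fintype ι] {q w : ι → L} {n : ι → ℤ} {ρ : ι → P.κ}
    (hE : ∀ i, Ev P (q i) (n i) (ρ i)) (hw : w ≠ 0) (h : WIker q w) :
    ∃ w' : ι → P.κ, w' ≠ 0 ∧
      (∀ i j, w i ≠ 0 → (w j = 0 ∨ P.ord (w i) - n i < P.ord (w j) - n j) → w' j = 0) ∧
      WIker ρ w' := by
  choose hρ u hu hq using hE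
  obtain ⟨w', h1, h2, h3⟩ := hR F L f P ι q w n u (fun i => by rw [hu i]; exact hρ i) hq hw h
  refine ⟨w', h1, h2, ?_⟩
  have : (fun i => P.res (u i)) = ρ := funext hu
  rwa [this] at h3

/-- Reduction, one coefficient of odd order. -/
lemma redo' (hRO : S_REDO) (hκ : FReal P.κ) {m : ℕ} {q w : Fin (m + 1) → L} (i₀ : Fin (m + 1))
    (hw0 : w i₀ = 0) (hw : w ≠ 0) (hq0 : q i₀ ≠ 0) (hodd : Odd (P.ord (q i₀)))
    {n : Fin m → ℤ} {ρ : Fin m → P.κ} (hE : ∀ i, Ev P (q (i₀.succAbove i)) (n i) (ρ i))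
    (h : WIker q w) : ∃ w' : Fin m → P.κ, w' ≠ 0 ∧ WIker ρ w' := by
  choose hρ u hu hq using hE
  obtain ⟨r, y, hy, hlin, hsum⟩ := h
  obtain ⟨w', h1, h3⟩ := hRO F L f P hκ (Fin m) (q i₀) hq0 hodd (fun i => q (i₀.succAbove i))
    (fun i => w (i₀.succAbove i)) n u (fun i => by rw [hu i]; exact hρ i) hq
    (by
      intro h0
      apply hw
      funext i
      by_cases hi : i = i₀
      · rw [hi, hw0]; rfl
      · obtain ⟨z, rfl⟩ := Fin.exists_succAbove_eq hi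
        exact congrFun h0 z)
    r (fun k => y k i₀) (fun k i => y k (i₀.succAbove i))
    (by
      by_contra hcon
      push Not at hcon
      obtain ⟨ha, hb⟩ := hcon
      apply hy
      funext k i
      by_cases hi : i = i₀
      · rw [hi]; exact congrFun ha k
      · obtain ⟨z, rfl⟩ := Fin.exists_succAbove_eq hi
        exact congrFun (congrFun hb k) z)
    (by
      intro k
      have := hlin k
      rw [Fin.sum_univ_succAbove _ i₀, hw0, zero_mul, zero_add] at this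
      exact this)
    (by
      rw [← hsum]
      refine Finset.sum_congr rfl fun k _ => ?_
      rw [Fin.sum_univ_succAbove _ i₀])
  refine ⟨w', h1, ?_⟩
  have : (fun i => P.res (u i)) = ρ := funext hu
  rwa [this] at h3

end

lemma three_ne {κ : Type} [Field κ] (h : FReal κ) : (3 : κ) ≠ 0 := by
  intro h30
  have := h 3 (fun _ => 1) (by simp; exact h30)
  exact one_ne_zero (this 0)

lemma isD2_one {κ : Type} [Field κ] : IsD2 (1 : κ) := ⟨1, 0, Or.inl one_ne_zero, by simp⟩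

lemma FReal.charZero {L : Type} [Field L] (h : FReal L) : CharZero L := by
  refine charZero_of_inj_zero fun n hn => ?_
  by_contra h0
  have := h n (fun _ => 1) (by simpa using hn)
  exact one_ne_zero (this ⟨0, Nat.pos_of_ne_zero h0⟩)

/-- the residue of `x` at a place where `x - a` vanishes -/
lemma res_at {F L : Type} [Field F] [Field L] {f : RatFunc F →+* L}
    (P : OddPlace (f.comp RatFunc.C)) {a : F} (h : 0 < P.ord (f (RatFunc.X - RatFunc.C a))) :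
    ∃ x : P.O, (x : L) = f RatFunc.X ∧ P.res x = P.j a := by
  have h1 : f (RatFunc.X - RatFunc.C a) ∈ P.O := P.memO (Or.inr h.le)
  have h2 : f (RatFunc.C a) ∈ P.O := P.memF a
  refine ⟨⟨f (RatFunc.X - RatFunc.C a), h1⟩ + ⟨f (RatFunc.C a), h2⟩, ?_, ?_⟩
  · show f (RatFunc.X - RatFunc.C a) + f (RatFunc.C a) = f RatFunc.X
    rw [← map_add]; congr 1; ring
  · rw [map_add, P.res_zero_of_pos h1 h, zero_add]
    exact P.res_f a

end Pool.Agent.N825.WI
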