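import Pool.Agent.N825.WI.Bas

/-! The tower of rational function fields: no three-dimensional weakly isotropic subforms. -/

namespace Pool.Agent.N825.WI

/-- All odd extensions of `F` are real. -/
def RO (F : Type) [Field F] : Prop :=
  ∀ (L : Type) [Field L] (f : F →+* L), OddHom f → FReal L

/-- If the residue field is real then the field is real. -/
lemma real_of_place (hR : S_RED) {F L : Type} [Field F] [Field L] {f : F →+* L}
    (P : OddPlace f) (hκ : FReal P.κ) : FReal L := by
  intro m x hx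
  by_contra hne
  push Not at hne
  obtain ⟨i0, hi0⟩ := hne
  have hw : WIker (L := L) ![1, 1] ![0, 1] := by
    refine ⟨m, fun k => ![x k, 0], ?_, ?_, ?_⟩
    · intro h0
      have := congrFun (congrFun h0 i0) 0
      simp at this
      exact hi0 this
    · intro k; simp [Fin.sum_univ_two]
    · simpa [Fin.sum_univ_two] using hx
  obtain ⟨w', hw', hz, n, y, hy, hlin, hsum⟩ :=
    hR F L f P (Fin 2) ![1, 1] ![0, 1] ![0, 0] ![1, 1]
      (by intro i; fin_cases i <;> simp) (by intro i; fin_cases i <;> simp)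
      (by intro h; have := congrFun h 1; simp at this) hw
  have h0 : w' 0 = 0 := hz 1 0 (by simp) (Or.inl (by simp))
  have h1 : w' 1 ≠ 0 := by
    intro h1
    apply hw'
    funext i
    fin_cases i
    · exact h0
    · exact h1
  have hy1 : ∀ k, y k 1 = 0 := by
    intro k
    have := hlin k
    rw [Fin.sum_univ_two, h0, zero_mul, zero_add] at this
    exact (mul_eq_zero.1 this).resolve_left h1
  have hs : ∑ k, y k 0 ^ 2 = 0 := by
    have : ∑ k, ∑ i, P.res ((![1, 1] : Fin 2 → P.O) i) * y k i ^ 2 = ∑ k, y k 0 ^ 2 := by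
      refine Finset.sum_congr rfl fun k _ => ?_
      rw [Fin.sum_univ_two, hy1 k]
      simp
    rw [← this]; exact hsum
  have := hκ n (fun k => y k 0) hs
  apply hy
  funext k i
  fin_cases i
  · exact this k
  · exact hy1 k

lemma ro_step (hR : S_RED) (hO : S_OVER) (F : Type) [Field F] [CharZero F] (h : RO F) :
    RO (RatFunc F) := by
  intro L _ f hf
  obtain ⟨P, -, -⟩ := hO F L f hf 0
  exact real_of_place hR P (h P.κ P.j P.odd)

/-- The two-dimensional base case. -/
lemma base2 {κ : Type} [Field κ] (hκ : FReal κ)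
    (hQ : ∀ a b c d u v : κ, 3 * (a ^ 2 + b ^ 2) * u ^ 2 = (c ^ 2 + d ^ 2) * v ^ 2 →
      (c ^ 2 + d ^ 2) * v ^ 2 = 0) {σ ρ : κ} (hσ : IsD2 σ) (hρ : IsD2 ρ) {w : Fin 2 → κ}
    (hw : w ≠ 0) : ¬ WIker ![3 * σ, -ρ] w := by
  rintro ⟨n, y, hy, hlin, hsum⟩
  -- the vectors are multiples of (w 1, - w 0)
  have hex : ∀ k, ∃ l : κ, y k 0 = l * w 1 ∧ y k 1 = -(l * w 0) := by
    intro k
    have h := hlin k
    rw [Fin.sum_univ_two] at h
    by_cases h1 : w 1 = 0
    · have h0 : w 0 ≠ 0 := by
        intro h0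
        apply hw; funext i; fin_cases i
        · exact h0
        · exact h1
      refine ⟨-(y k 1 / w 0), ?_, ?_⟩
      · rw [h1, zero_mul, add_zero] at h
        rw [h1, mul_zero]
        exact (mul_eq_zero.1 h).resolve_left h0
      · field_simp
    · refine ⟨y k 0 / w 1, ?_, ?_⟩
      · field_simp
      · field_simp
        linear_combination h
  choose l hl0 hl1 using hex
  have hsum2 : (∑ k, l k ^ 2) * (3 * σ * w 1 ^ 2 - ρ * w 0 ^ 2) = 0 := by
    rw [Finset.sum_mul, ← hsum]
    refine Finset.sum_congr rfl fun k _ => ?_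
    rw [Fin.sum_univ_two, hl0 k, hl1 k]
    simp
    ring
  have hl : (∑ k, l k ^ 2) ≠ 0 := by
    intro h0
    have := hκ n l h0
    apply hy
    funext k i
    fin_cases i
    · show y k 0 = 0
      rw [hl0 k, this k, zero_mul]
    · show y k 1 = 0
      rw [hl1 k, this k, zero_mul, neg_zero]
  have h3 := (mul_eq_zero.1 hsum2).resolve_left hl
  have hσ0 := hσ.ne_zero hκ
  have hρ0 := hρ.ne_zero hκ
  obtain ⟨a, b, hab, rfl⟩ := hσ
  obtain ⟨c, d, hcd, rfl⟩ := hρ
  have h4 : 3 * (a ^ 2 + b ^ 2) * w 1 ^ 2 = (c ^ 2 + d ^ 2) * w 0 ^ 2 := by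
    linear_combination h3
  have h5 := hQ a b c d (w 1) (w 0) h4
  have h30 : (3 : κ) ≠ 0 := by
    intro h30
    have := hκ 3 (fun _ => 1) (by simp; exact h30)
    exact one_ne_zero (this 0)
  have hw0 : w 0 = 0 := by
    have := (mul_eq_zero.1 h5).resolve_left hρ0
    exact pow_eq_zero_iff (two_ne_zero) |>.1 this
  have hw1 : w 1 = 0 := by
    rw [h5] at h4
    have := (mul_eq_zero.1 h4).resolve_left (mul_ne_zero h30 hσ0)
    exact pow_eq_zero_iff (two_ne_zero) |>.1 this
  apply hw
  funext i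
  fin_cases i
  · exact hw0
  · exact hw1

end Pool.Agent.N825.WI
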