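import Pool.Agent.N825.WI.Def

set_option autoImplicit false

/-! Parity of the norm at a prime of odd degree (project WI of helper825; written by helper765). -/

namespace Pool.Agent.N825.WI.NORM

open Polynomial UniqueFactorizationMonoid Module

section Abstract

variable {F : Type} [Field F] [CharZero F] {S : Type} [CommRing S]
  [IsDedekindDomain S] [Algebra F[X] S] [Module.Finite F[X] S] [IsTorsionFree F[X] S]

omit [CharZero F] [IsDedekindDomain S] [IsTorsionFree F[X] S] in
lemma oddhom {p : F[X]} (hp : Irreducible p) (hodd : Odd p.natDegree) (P : Ideal S)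
    [P.IsMaximal] [P.LiesOver (Ideal.span {p})] (hf : Odd (P.inertiaDeg F[X])) :
    @OddHom F (S ⧸ P) _ (Ideal.Quotient.field P)
      ((Ideal.Quotient.mk P).comp ((algebraMap F[X] S).comp (C : F →+* F[X]))) := by
  have hmax : (Ideal.span {p} : Ideal F[X]).IsMaximal :=
    PrincipalIdealRing.isMaximal_of_irreducible hp
  rw [Ideal.inertiaDeg_eq_of_isMaximal (Ideal.span {p})] at hf
  let i1 : Field (F[X] ⧸ (Ideal.span {p} : Ideal F[X])) := Ideal.Quotient.field _
  let i2 : Field (S ⧸ P) := Ideal.Quotient.field P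
  let i3 : Algebra F (S ⧸ P) :=
    ((Ideal.Quotient.mk P).comp ((algebraMap F[X] S).comp (C : F →+* F[X]))).toAlgebra
  have i4 : IsScalarTower F (F[X] ⧸ (Ideal.span {p} : Ideal F[X])) (S ⧸ P) :=
    IsScalarTower.of_algebraMap_eq fun x => rfl
  have hd : Module.finrank F (F[X] ⧸ (Ideal.span {p} : Ideal F[X])) = p.natDegree :=
    finrank_quotient_span_eq_natDegree
  have hpos : 0 < p.natDegree := hodd.pos
  have i5 : Module.Finite F (F[X] ⧸ (Ideal.span {p} : Ideal F[X])) :=
    Module.finite_of_finrank_pos (by rw [hd]; exact hpos)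
  have i6 : Module.Finite (F[X] ⧸ (Ideal.span {p} : Ideal F[X])) (S ⧸ P) :=
    Module.finite_of_finrank_pos hf.pos
  have hmul := Module.finrank_mul_finrank F (F[X] ⧸ (Ideal.span {p} : Ideal F[X])) (S ⧸ P)
  refine ⟨Module.Finite.trans (F[X] ⧸ (Ideal.span {p} : Ideal F[X])) (S ⧸ P), ?_⟩
  show Odd (Module.finrank F (S ⧸ P))
  rw [← hmul, hd]
  exact hodd.mul hf

lemma mult_norm {p : F[X]} (hp : Irreducible p) (s : S) (hs : s ≠ 0)
    (hP : ∀ P : Ideal S, P.IsMaximal → P.LiesOver (Ideal.span {p}) → Odd (P.inertiaDeg F[X]) →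
      ∃ c : ℕ, Even c ∧ ∀ n : ℕ, n ≤ c ↔ s ∈ P ^ n) :
    Even (multiplicity p (Algebra.intNorm F[X] S s)) := by
  classical
  have hmax : (Ideal.span {p} : Ideal F[X]).IsMaximal :=
    PrincipalIdealRing.isMaximal_of_irreducible hp
  have hpr : Prime (Ideal.span {p} : Ideal F[X]) :=
    (Ideal.prime_iff_isPrime (by simpa using hp.ne_zero)).2 hmax.isPrime
  have hspan0 : (Ideal.span {s} : Ideal S) ≠ ⊥ := by simpa using hs
  -- reduce to ideals
  have h1 : multiplicity p (Algebra.intNorm F[X] S s) =
      multiplicity (Ideal.span {p}) (Ideal.relNorm F[X] (Ideal.span {s} : Ideal S)) := by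
    rw [Ideal.relNorm_singleton]
    unfold multiplicity
    rw [Ideal.emultiplicity_eq_emultiplicity_span]
  rw [h1]
  have hfin : ∀ I : Ideal S, I ≠ ⊥ →
      FiniteMultiplicity (Ideal.span {p}) (Ideal.relNorm F[X] I) := by
    intro I hI
    refine FiniteMultiplicity.of_prime_left hpr ?_
    rw [Ideal.zero_eq_bot, Ne, Ideal.relNorm_eq_bot_iff]
    exact hI
  have hmult : ∀ m : Multiset (Ideal S), (∀ Q ∈ m, Q ≠ ⊥) →
      multiplicity (Ideal.span {p}) (Ideal.relNorm F[X] m.prod) =
        (m.map fun Q => multiplicity (Ideal.span {p}) (Ideal.relNorm F[X] Q)).sum := by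
    intro m
    induction m using Multiset.induction_on with
    | empty =>
      intro _
      simp only [Multiset.prod_zero, Multiset.map_zero, Multiset.sum_zero, map_one]
      rw [multiplicity_eq_zero]
      intro h
      exact hpr.not_isUnit (isUnit_of_dvd_one h)
    | cons Q m ih =>
      intro h
      have hm : m.prod ≠ ⊥ := by
        rw [← Ideal.zero_eq_bot]
        refine Multiset.prod_ne_zero fun h0 => ?_
        exact h 0 (Multiset.mem_cons_of_mem h0) Ideal.zero_eq_bot
      have hQ : Q ≠ ⊥ := h Q (Multiset.mem_cons_self Q m)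
      rw [Multiset.prod_cons, Multiset.map_cons, Multiset.sum_cons, map_mul,
        multiplicity_mul hpr, ih fun R hR => h R (Multiset.mem_cons_of_mem hR)]
      rw [← map_mul]
      exact hfin _ (mul_ne_zero hQ hm)
  set m := normalizedFactors (Ideal.span {s} : Ideal S) with hmdef
  have hmp : m.prod = Ideal.span {s} := by
    have := prod_normalizedFactors (a := (Ideal.span {s} : Ideal S)) hspan0
    rwa [associated_iff_eq] at this
  have hm0 : ∀ Q ∈ m, Q ≠ ⊥ := by
    intro Q hQ
    exact (prime_of_normalized_factor Q hQ).ne_zero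
  rw [← hmp, hmult m hm0, Finset.sum_multiset_map_count]
  refine Finset.even_sum _ fun Q hQ => ?_
  rw [Multiset.mem_toFinset] at hQ
  have hQp : Prime Q := prime_of_normalized_factor Q hQ
  have hQprime : Q.IsPrime := Ideal.isPrime_of_prime hQp
  have hQmax : Q.IsMaximal := hQprime.isMaximal (hm0 Q hQ)
  have hint : Algebra.IsIntegral F[X] S := inferInstance
  have hum : (Q.under F[X]).IsMaximal := Ideal.isMaximal_comap_of_isIntegral_of_isMaximal Q
  by_cases hover : Q.under F[X] = Ideal.span {p}
  · have : Q.LiesOver (Ideal.span {p}) := ⟨hover.symm⟩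
    by_cases hodd : Odd (Q.inertiaDeg F[X])
    · obtain ⟨c, hc, hcn⟩ := hP Q hQmax inferInstance hodd
      have hcount : m.count Q = c := by
        have h2 : ∀ n : ℕ, n ≤ m.count Q ↔ n ≤ c := by
          intro n
          rw [hcn n]
          rw [← Ideal.span_singleton_le_iff_mem, ← Ideal.dvd_iff_le,
            Ideal.dvd_iff_le]
          rw [← Ideal.dvd_iff_le, pow_dvd_iff_le_emultiplicity,
            emultiplicity_eq_count_normalizedFactors hQp.irreducible hspan0]
          simp [hmdef]
        exact le_antisymm ((h2 _).1 le_rfl) ((h2 _).2 le_rfl)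
      rw [hcount, smul_eq_mul]
      exact hc.mul_right _
    · rw [Nat.not_odd_iff_even] at hodd
      have h3 : Ideal.relNorm F[X] Q = Ideal.span {p} ^ Q.inertiaDeg F[X] :=
        Ideal.relNorm_eq_pow_of_isMaximal Q (Ideal.span {p})
      rw [h3, multiplicity_pow_self_of_prime hpr, smul_eq_mul]
      exact hodd.mul_left _
  · have h4 : multiplicity (Ideal.span {p}) (Ideal.relNorm F[X] Q) = 0 := by
      rw [multiplicity_eq_zero]
      intro hdvd
      obtain ⟨t, ht⟩ := Ideal.exists_relNorm_eq_pow_of_isPrime Q (Q.under F[X])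
      rw [ht] at hdvd
      have h5 := hpr.dvd_of_dvd_pow hdvd
      rw [Ideal.dvd_iff_le] at h5
      exact hover (hum.eq_of_le hmax.ne_top h5)
    rw [h4]
    simp

end Abstract

section Place

variable {F L : Type} [Field F] [Field L] {f : F →+* L} (pl : OddPlace f)

lemma ord_one : pl.ord 1 = 0 := by
  have := pl.ord_mul 1 1 one_ne_zero one_ne_zero
  rw [mul_one] at this
  omega

lemma ord_pow {x : L} (hx : x ≠ 0) (n : ℕ) : pl.ord (x ^ n) = n * pl.ord x := by
  induction n with
  | zero => simp [ord_one]
  | succ n ih =>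
    rw [pow_succ, pl.ord_mul _ _ (pow_ne_zero n hx) hx, ih]
    push_cast
    ring

end Place

end NORM

open Polynomial Module in
theorem normParity (h : S_PP) : S_NORM := by
  intro F L _ _ _ f hodd g hg p hpm hpi hpd c hc A B hA hB hAB
  let a1 : Algebra (RatFunc F) L := f.toAlgebra
  let a2 : Algebra F[X] L := (f.comp (algebraMap F[X] (RatFunc F))).toAlgebra
  have t1 : IsScalarTower F[X] (RatFunc F) L := .of_algebraMap_eq fun _ => rfl
  have fd : FiniteDimensional (RatFunc F) L := hodd.1
  have hd : Odd (finrank (RatFunc F) L) := hodd.2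
  have cz : CharZero (RatFunc F) := charZero_of_injective_algebraMap
    (FaithfulSMul.algebraMap_injective F (RatFunc F))
  have dd : IsDedekindDomain (integralClosure F[X] L) :=
    integralClosure.isDedekindDomain F[X] (RatFunc F) L
  have fr : IsFractionRing (integralClosure F[X] L) L :=
    integralClosure.isFractionRing_of_finite_extension (RatFunc F) L
  have fin : Module.Finite F[X] (integralClosure F[X] L) :=
    IsIntegralClosure.finite F[X] (RatFunc F) L (integralClosure F[X] L)
  have inj : Function.Injective (algebraMap F[X] L) :=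
    f.injective.comp (IsFractionRing.injective F[X] (RatFunc F))
  have fs : FaithfulSMul F[X] L := (faithfulSMul_iff_algebraMap_injective F[X] L).2 inj
  have tf : IsTorsionFree F[X] (integralClosure F[X] L) := inferInstance
  -- an integral multiple
  have halg : IsAlgebraic F[X] g := by
    have : Algebra.IsAlgebraic F[X] L := IsFractionRing.comap_isAlgebraic_iff.mpr
      (inferInstance : Algebra.IsAlgebraic (RatFunc F) L)
    exact this.isAlgebraic g
  obtain ⟨b, hb0, hbg⟩ := halg.exists_integral_multiple
  set c' : ℕ := c.natAbs with hc'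
  have hbL : algebraMap F[X] L b ≠ 0 := by
    rw [Ne, map_eq_zero_iff _ inj]; exact hb0
  have hpL : algebraMap F[X] L p ≠ 0 := by
    rw [Ne, map_eq_zero_iff _ inj]; exact hpi.ne_zero
  have hint : IsIntegral F[X] ((b • g) * algebraMap F[X] L p ^ c' * algebraMap F[X] L b) :=
    (hbg.mul ((isIntegral_algebraMap).pow c')).mul isIntegral_algebraMap
  obtain ⟨s, hs⟩ : ∃ s : integralClosure F[X] L, algebraMap (integralClosure F[X] L) L s =
      g * algebraMap F[X] L p ^ c' * algebraMap F[X] L b ^ 2 := by
    refine ⟨⟨_, hint⟩, ?_⟩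
    show (b • g) * algebraMap F[X] L p ^ c' * algebraMap F[X] L b = _
    rw [Algebra.smul_def]
    ring
  have hs0L : algebraMap (integralClosure F[X] L) L s ≠ 0 := by
    rw [hs]
    exact mul_ne_zero (mul_ne_zero hg (pow_ne_zero _ hpL)) (pow_ne_zero _ hbL)
  have hs0 : s ≠ 0 := by
    rintro rfl
    exact hs0L (map_zero _)
  have hpspan : (Ideal.span {p} : Ideal F[X]) ≠ ⊥ := by simpa using hpi.ne_zero
  have key : Even (multiplicity p (Algebra.intNorm F[X] (integralClosure F[X] L) s)) := by
    refine NORM.mult_norm hpi s hs0 fun P hPm hPl hPi => ?_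
    have hP0 : P ≠ ⊥ := Ideal.ne_bot_of_liesOver_of_ne_bot hpspan P
    have h1 := h F (integralClosure F[X] L) L
      ((algebraMap F[X] (integralClosure F[X] L)).comp (C : F →+* F[X])) P hP0
      (NORM.oddhom hpi hpd P hPi)
    have heq : (algebraMap (integralClosure F[X] L) L).comp
        ((algebraMap F[X] (integralClosure F[X] L)).comp (C : F →+* F[X])) =
        f.comp RatFunc.C := rfl
    rw [heq] at h1
    obtain ⟨pl, hpl⟩ := h1
    have hpP : algebraMap F[X] (integralClosure F[X] L) p ∈ P := by
      have h2 : Ideal.span {p} = P.under F[X] := hPl.over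
      have h3 : p ∈ P.under F[X] := by
        rw [← h2]; exact Ideal.mem_span_singleton_self p
      exact h3
    have hp0 : algebraMap F[X] (integralClosure F[X] L) p ≠ 0 := by
      intro h0
      apply hpL
      rw [IsScalarTower.algebraMap_apply F[X] (integralClosure F[X] L) L, h0, map_zero]
    have hpos : 0 < pl.ord (f (algebraMap F[X] (RatFunc F) p)) := by
      have h4 := (hpl _ hp0 1).2 (by rw [pow_one]; exact hpP)
      have h5 : algebraMap (integralClosure F[X] L) L
          (algebraMap F[X] (integralClosure F[X] L) p) = f (algebraMap F[X] (RatFunc F) p) := rfl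
      rw [h5] at h4
      push_cast at h4
      omega
    have hev := hc pl hpos
    have h6 : pl.ord (algebraMap (integralClosure F[X] L) L s) =
        pl.ord g + c' * pl.ord (f (algebraMap F[X] (RatFunc F) p)) +
          2 * pl.ord (algebraMap F[X] L b) := by
      rw [hs, pl.ord_mul _ _ (mul_ne_zero hg (pow_ne_zero _ hpL)) (pow_ne_zero _ hbL),
        pl.ord_mul _ _ hg (pow_ne_zero _ hpL), NORM.ord_pow pl hpL, NORM.ord_pow pl hbL]
      rfl
    have h7 : Even (pl.ord (algebraMap (integralClosure F[X] L) L s)) := by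
      rw [h6]
      refine Even.add ?_ (even_two_mul _)
      have h8 : Even ((c' : ℤ) - c) := by
        rw [Int.even_sub, hc']
        simp [even_abs]
      have h9 : pl.ord g + c' * pl.ord (f (algebraMap F[X] (RatFunc F) p)) =
          (pl.ord g + c * pl.ord (f (algebraMap F[X] (RatFunc F) p))) +
            ((c' : ℤ) - c) * pl.ord (f (algebraMap F[X] (RatFunc F) p)) := by ring
      rw [h9]
      exact hev.add (h8.mul_right _)
    have h10 : 0 ≤ pl.ord (algebraMap (integralClosure F[X] L) L s) := by
      have := (hpl s hs0 0).2 (by rw [pow_zero, Ideal.one_eq_top]; trivial)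
      simpa using this
    refine ⟨(pl.ord (algebraMap (integralClosure F[X] L) L s)).toNat, ?_, fun n => ?_⟩
    · rw [← Int.even_coe_nat, Int.toNat_of_nonneg h10]
      exact h7
    · rw [← hpl s hs0 n]
      omega
  -- the norm
  have hN : algebraMap F[X] (RatFunc F) (Algebra.intNorm F[X] (integralClosure F[X] L) s) =
      Algebra.norm (RatFunc F) g *
        algebraMap F[X] (RatFunc F) p ^ (c' * finrank (RatFunc F) L) *
        algebraMap F[X] (RatFunc F) b ^ (2 * finrank (RatFunc F) L) := by
    rw [Algebra.algebraMap_intNorm (A := F[X]) (K := RatFunc F) (L := L), hs, map_mul, map_mul,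
      map_pow, map_pow, IsScalarTower.algebraMap_apply F[X] (RatFunc F) L p,
      IsScalarTower.algebraMap_apply F[X] (RatFunc F) L b, Algebra.norm_algebraMap,
      Algebra.norm_algebraMap, ← pow_mul, ← pow_mul, mul_comm (finrank (RatFunc F) L) c',
      mul_comm (finrank (RatFunc F) L) 2]
  have hpoly : A * p ^ (c' * finrank (RatFunc F) L) * b ^ (2 * finrank (RatFunc F) L) =
      B * Algebra.intNorm F[X] (integralClosure F[X] L) s := by
    apply IsFractionRing.injective F[X] (RatFunc F)
    rw [map_mul, map_mul, map_mul, map_pow, map_pow, hN, hAB]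
    ring
  have hpr : Prime p := hpi.prime
  have hI0 : Algebra.intNorm F[X] (integralClosure F[X] L) s ≠ 0 := by
    intro h0
    rw [h0, mul_zero] at hpoly
    exact mul_ne_zero (mul_ne_zero hA (pow_ne_zero _ hpi.ne_zero)) (pow_ne_zero _ hb0) hpoly
  have hfm : ∀ {q : F[X]}, q ≠ 0 → FiniteMultiplicity p q := fun hq =>
    FiniteMultiplicity.of_prime_left hpr hq
  have hm := congrArg (multiplicity p) hpoly
  rw [multiplicity_mul hpr (hfm (mul_ne_zero (mul_ne_zero hA (pow_ne_zero _ hpi.ne_zero))
      (pow_ne_zero _ hb0))),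
    multiplicity_mul hpr (hfm (mul_ne_zero hA (pow_ne_zero _ hpi.ne_zero))),
    multiplicity_mul hpr (hfm (mul_ne_zero hB hI0)),
    multiplicity_pow_self_of_prime hpr, (hfm hb0).multiplicity_pow hpr] at hm
  obtain ⟨d, hdd⟩ := hd
  obtain ⟨e, hee⟩ := key
  have h8 : Even ((c' : ℤ) - c) := by
    rw [Int.even_sub, hc']
    simp [even_abs]
  obtain ⟨w, hw⟩ := h8
  rw [hdd, hee] at hm
  have hm' : (multiplicity p A : ℤ) + c' * (2 * d + 1) + 2 * (2 * d + 1) * multiplicity p b =
      multiplicity p B + (e + e) := by exact_mod_cast hm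
  refine ⟨multiplicity p B + e - c' * d - (2 * d + 1) * multiplicity p b - w, ?_⟩
  have h12 : c = (c' : ℤ) - (w + w) := by omega
  rw [h12]
  linear_combination hm'

end Pool.Agent.N825.WI
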