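import Pool.Agent.N825.WI.Def

/-! Odd places over rational points of the line. -/

set_option autoImplicit false
set_option linter.style.haveILetI false

open Polynomial

namespace Pool.Agent.N825.WI

namespace OVER

/-- an odd sum has an odd term -/
lemma exists_odd {ι : Type*} (s : Finset ι) (f : ι → ℕ) (h : Odd (∑ i ∈ s, f i)) :
    ∃ i ∈ s, Odd (f i) := by
  by_contra hcon
  push Not at hcon
  have h1 : Even (∑ i ∈ s, f i) := Finset.even_sum _ (fun i hi => Nat.not_odd_iff_even.1 (hcon i hi))
  exact (Nat.not_odd_iff_even.2 h1) h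

/-- `F` is the residue field at `a` -/
noncomputable def resEquiv {F : Type} [Field F] (a : F) :
    F ≃+* (F[X] ⧸ (Ideal.span {(X : F[X]) - C a})) :=
  (quotientSpanXSubCAlgEquiv a).symm.toRingEquiv

lemma resEquiv_apply {F : Type} [Field F] (a b : F) :
    resEquiv a b = Ideal.Quotient.mk _ (C b) := by
  rw [resEquiv]
  show (quotientSpanXSubCAlgEquiv a).symm b = _
  rw [AlgEquiv.symm_apply_eq]
  simp

end OVER

open OVER in
theorem over_main (h : S_PP) : S_OVER := by
  intro F L _ _ _ f hf a
  obtain ⟨hfin, hodd⟩ := hf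
  letI : Algebra (RatFunc F) L := f.toAlgebra
  haveI : Module.Finite (RatFunc F) L := hfin
  letI : Algebra F[X] L := (f.comp (algebraMap F[X] (RatFunc F))).toAlgebra
  haveI : IsScalarTower F[X] (RatFunc F) L := IsScalarTower.of_algebraMap_eq fun _ => rfl
  haveI : CharZero (RatFunc F) := charZero_of_injective_algebraMap (R := F)
    (algebraMap F (RatFunc F)).injective
  haveI : Algebra.IsAlgebraic (RatFunc F) L := Algebra.IsAlgebraic.of_finite _ _
  haveI : Algebra.IsSeparable (RatFunc F) L := inferInstance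
  set S := integralClosure F[X] L with hS
  haveI : IsDedekindDomain S := integralClosure.isDedekindDomain F[X] (RatFunc F) L
  haveI : IsFractionRing S L := integralClosure.isFractionRing_of_finite_extension (RatFunc F) L
  haveI : Module.Finite F[X] S := IsIntegralClosure.finite F[X] (RatFunc F) L S
  have hinj : Function.Injective (algebraMap F[X] S) := by
    have h1 : Function.Injective (algebraMap F[X] L) := by
      rw [IsScalarTower.algebraMap_eq F[X] (RatFunc F) L]
      exact (algebraMap (RatFunc F) L).injective.comp (RatFunc.algebraMap_injective F)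
    intro u v huv
    apply h1
    rw [IsScalarTower.algebraMap_apply F[X] S L, IsScalarTower.algebraMap_apply F[X] S L, huv]
  haveI : Module.IsTorsionFree F[X] S := Module.isTorsionFree_iff_algebraMap_injective.2 hinj
  set p : Ideal F[X] := Ideal.span {(X : F[X]) - C a} with hp
  have hp0 : p ≠ ⊥ := by
    rw [hp, Ne, Ideal.span_singleton_eq_bot]
    exact X_sub_C_ne_zero a
  haveI hpm : p.IsMaximal := by
    rw [hp]
    exact PrincipalIdealRing.isMaximal_of_irreducible (irreducible_X_sub_C a)
  have hsum := Ideal.sum_ramification_inertia S (RatFunc F) L hp0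
  have hodd' : Odd (Module.finrank (RatFunc F) L) := hodd
  rw [← hsum] at hodd'
  obtain ⟨P, hP, hPodd⟩ := exists_odd _ _ hodd'
  rw [Nat.odd_mul] at hPodd
  rw [IsDedekindDomain.mem_primesOverFinset_iff hp0] at hP
  haveI hPp : P.IsPrime := hP.1
  haveI hPo : P.LiesOver p := hP.2
  haveI : IsDomain S := inferInstance
  have hP0 : P ≠ ⊥ := Ideal.ne_bot_of_liesOver_of_ne_bot hp0 P
  haveI hPM : P.IsMaximal := hPp.isMaximal hP0
  set g : F →+* S := (algebraMap F[X] S).comp C with hg
  letI : Field (S ⧸ P) := Ideal.Quotient.field P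
  letI : Algebra F (S ⧸ P) := ((Ideal.Quotient.mk P).comp g).toAlgebra
  have hrank : Module.finrank F (S ⧸ P) = p.inertiaDeg' P := by
    rw [Ideal.inertiaDeg'_algebraMap]
    refine Algebra.finrank_eq_of_equiv_equiv (resEquiv a) (RingEquiv.refl _) ?_
    ext b
    show algebraMap (F[X] ⧸ p) (S ⧸ P) (resEquiv a b) = algebraMap F (S ⧸ P) b
    rw [resEquiv_apply]
    rfl
  have hoh : @OddHom F (S ⧸ P) _ (Ideal.Quotient.field P) ((Ideal.Quotient.mk P).comp g) := by
    have h1 : Odd (Module.finrank F (S ⧸ P)) := by rw [hrank]; exact hPodd.2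
    exact ⟨Module.finite_of_finrank_pos h1.pos, h1⟩
  obtain ⟨pl, hpl⟩ := h F S L g P hP0 hoh
  have hgf : (algebraMap S L).comp g = f.comp RatFunc.C := by
    ext b
    simp only [RingHom.comp_apply, hg]
    rw [← IsScalarTower.algebraMap_apply F[X] S L]
    show f (algebraMap F[X] (RatFunc F) (C b)) = f (RatFunc.C b)
    rw [RatFunc.algebraMap_C]
  have hx : algebraMap S L (algebraMap F[X] S (X - C a)) = f (RatFunc.X - RatFunc.C a) := by
    rw [← IsScalarTower.algebraMap_apply F[X] S L]
    show f (algebraMap F[X] (RatFunc F) (X - C a)) = _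
    rw [map_sub, RatFunc.algebraMap_X, RatFunc.algebraMap_C]
  have hx0 : algebraMap F[X] S (X - C a) ≠ 0 := by
    intro h0
    rw [← map_zero (algebraMap F[X] S)] at h0
    exact X_sub_C_ne_zero a (hinj h0)
  have hord : ((p.ramificationIdx' P : ℕ) : ℤ) =
      pl.ord (algebraMap S L (algebraMap F[X] S (X - C a))) := by
    have h1 : ∀ n : ℕ, (n : ℤ) ≤ pl.ord (algebraMap S L (algebraMap F[X] S (X - C a))) ↔
        p.map (algebraMap F[X] S) ≤ P ^ n := by
      intro n
      rw [hpl _ hx0 n, hp, Ideal.map_span, Set.image_singleton, Ideal.span_singleton_le_iff_mem]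
    have h2 : 0 ≤ pl.ord (algebraMap S L (algebraMap F[X] S (X - C a))) := by
      have := (h1 0).2 (by simp)
      simpa using this
    obtain ⟨N, hN⟩ := Int.eq_ofNat_of_zero_le h2
    rw [hN] at h1 ⊢
    have h3 : {n | p.map (algebraMap F[X] S) ≤ P ^ n} = Set.Iic N := by
      ext n
      rw [Set.mem_setOf_eq, ← h1 n, Set.mem_Iic]
      exact Int.ofNat_le
    rw [Ideal.ramificationIdx', h3, csSup_Iic]
  have hres : 0 < pl.ord (f (RatFunc.X - RatFunc.C a)) ∧
      Odd (pl.ord (f (RatFunc.X - RatFunc.C a))) := by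
    rw [← hx, ← hord]
    refine ⟨?_, ?_⟩
    · exact_mod_cast hPodd.1.pos
    · exact_mod_cast hPodd.1
  rw [← hgf]
  exact ⟨pl, hres⟩

end Pool.Agent.N825.WI
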