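import Pool.Agent.N825.WI.Def

/-! The parity lemma. -/

namespace Pool.Agent.N825.WI.PAR

open Polynomial

section Place

variable {F L : Type} [Field F] [Field L] {f : F →+* L} (P : OddPlace f)

theorem ord_one : P.ord 1 = 0 := by
  have h := P.ord_mul 1 1 one_ne_zero one_ne_zero
  rw [mul_one] at h
  linarith

theorem ord_inv {x : L} (hx : x ≠ 0) : P.ord x⁻¹ = - P.ord x := by
  have h := P.ord_mul x x⁻¹ hx (inv_ne_zero hx)
  rw [mul_inv_cancel₀ hx, ord_one] at h
  linarith

theorem ord_pow {x : L} (hx : x ≠ 0) (n : ℕ) : P.ord (x ^ n) = n * P.ord x := by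
  induction n with
  | zero => simp [ord_one]
  | succ n ih =>
    rw [pow_succ, P.ord_mul _ _ (pow_ne_zero n hx) hx, ih]
    push_cast
    ring

/-- A monic polynomial of positive order at `t` forces `t` to be integral. -/
theorem ord_nonneg {t : L} (ht : t ≠ 0) {p : F[X]} (hp : p.Monic)
    (h : 0 < P.ord (p.eval₂ f t)) (h0 : p.eval₂ f t ≠ 0) : 0 ≤ P.ord t := by
  by_contra hneg
  push Not at hneg
  have : Invertible t := invertibleOfNonzero ht
  have key := Polynomial.eval₂_reverse_mul_pow f t p
  rw [invOf_eq_inv] at key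
  have htn : t ^ p.natDegree ≠ 0 := pow_ne_zero _ ht
  have hr0 : Polynomial.eval₂ f t⁻¹ p.reverse ≠ 0 := by
    intro h1
    rw [h1, zero_mul] at key
    exact h0 key.symm
  have hord := P.ord_mul _ _ hr0 htn
  rw [key, ord_pow P ht] at hord
  have hpos : 0 < P.ord (Polynomial.eval₂ f t⁻¹ p.reverse) := by
    have : (p.natDegree : ℤ) * P.ord t ≤ 0 :=
      mul_nonpos_of_nonneg_of_nonpos (by positivity) hneg.le
    linarith
  have hti : 0 < P.ord t⁻¹ := by rw [ord_inv P ht]; linarith
  have htO : t⁻¹ ∈ P.O := (P.mem_O _ (inv_ne_zero ht)).2 hti.le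
  have hresu : P.res ⟨t⁻¹, htO⟩ = 0 := (P.res_eq_zero _ (inv_ne_zero ht)).2 hti
  let g : F →+* P.O := f.codRestrict P.O P.memF
  have hev : ((Polynomial.eval₂ g (⟨t⁻¹, htO⟩ : P.O) p.reverse : P.O) : L)
      = Polynomial.eval₂ f t⁻¹ p.reverse := by
    have := Polynomial.hom_eval₂ p.reverse g P.O.subtype (⟨t⁻¹, htO⟩ : P.O)
    exact this
  have hres : P.res (Polynomial.eval₂ g (⟨t⁻¹, htO⟩ : P.O) p.reverse) = 0 := by
    apply (P.res_eq_zero _ _).2
    · rw [hev]; exact hpos
    · rw [hev]; exact hr0
  rw [Polynomial.hom_eval₂, hresu, Polynomial.eval₂_at_zero, Polynomial.coeff_zero_reverse,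
    hp.leadingCoeff, map_one] at hres
  exact one_ne_zero hres

end Place

/-- Even multiplicities at all primes of odd degree give even degree. -/
theorem even_natDegree {F : Type} [Field F] {D : F[X]} (hD : D ≠ 0)
    (h : ∀ p : F[X], p.Monic → Irreducible p → Odd p.natDegree → Even (multiplicity p D)) :
    Even D.natDegree := by
  classical
  have hass := UniqueFactorizationMonoid.prod_normalizedFactors hD
  have hdeg : D.natDegree = ((UniqueFactorizationMonoid.normalizedFactors D).map
      natDegree).sum := by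
    rw [← Polynomial.natDegree_multiset_prod]
    · exact (Polynomial.natDegree_eq_of_degree_eq
        (Polynomial.degree_eq_degree_of_associated hass)).symm
    · exact UniqueFactorizationMonoid.zero_notMem_normalizedFactors D
  rw [hdeg, Finset.sum_multiset_map_count]
  apply Finset.even_sum
  intro p hp
  rw [Multiset.mem_toFinset] at hp
  have hirr := UniqueFactorizationMonoid.irreducible_of_normalized_factor p hp
  have hnorm := UniqueFactorizationMonoid.normalize_normalized_factor p hp
  have hmon : p.Monic := by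
    rw [← hnorm]
    exact Polynomial.monic_normalize hirr.ne_zero
  have hcount := UniqueFactorizationMonoid.multiplicity_eq_count_normalizedFactors hirr hD
  rw [hnorm] at hcount
  rw [← hcount, smul_eq_mul]
  rcases Nat.even_or_odd p.natDegree with he | ho
  · exact he.mul_left _
  · exact (h p hmon hirr ho).mul_right _

section Swap

variable (F : Type) [Field F]

/-- Substituting `1 / X`. -/
noncomputable def sub : F[X] →+* RatFunc F := Polynomial.eval₂RingHom RatFunc.C (RatFunc.X)⁻¹

theorem sub_apply (p : F[X]) : sub F p =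
    algebraMap F[X] (RatFunc F) p.reverse * ((RatFunc.X : RatFunc F)⁻¹) ^ p.natDegree := by
  have : Invertible ((RatFunc.X : RatFunc F)⁻¹) :=
    invertibleOfNonzero (inv_ne_zero RatFunc.X_ne_zero)
  have key := Polynomial.eval₂_reverse_mul_pow (RatFunc.C : F →+* RatFunc F)
    ((RatFunc.X : RatFunc F)⁻¹) p
  rw [invOf_eq_inv, inv_inv] at key
  have h2 : Polynomial.eval₂ (RatFunc.C : F →+* RatFunc F) RatFunc.X p.reverse
      = algebraMap F[X] (RatFunc F) p.reverse := by
    rw [← RatFunc.algebraMap_X, ← RatFunc.algebraMap_eq_C, ← Polynomial.aeval_def,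
      Polynomial.aeval_algebraMap_apply, Polynomial.aeval_X_left_apply]
  rw [h2] at key
  exact key.symm

theorem sub_injective : Function.Injective (sub F) := by
  rw [injective_iff_map_eq_zero]
  intro p hp
  rw [sub_apply] at hp
  have h1 : ((RatFunc.X : RatFunc F)⁻¹) ^ p.natDegree ≠ 0 :=
    pow_ne_zero _ (inv_ne_zero RatFunc.X_ne_zero)
  have h2 := (mul_eq_zero.1 hp).resolve_right h1
  rw [map_eq_zero_iff _ (RatFunc.algebraMap_injective F)] at h2
  exact Polynomial.reverse_eq_zero.1 h2

/-- The endomorphism `X ↦ 1 / X`. -/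
noncomputable def swap : RatFunc F →+* RatFunc F :=
  RatFunc.liftRingHom (sub F)
    (nonZeroDivisors_le_comap_nonZeroDivisors_of_injective _ (sub_injective F))

theorem swap_algebraMap (p : F[X]) : swap F (algebraMap F[X] (RatFunc F) p) = sub F p := by
  have := RatFunc.liftRingHom_apply_div (sub F)
    (nonZeroDivisors_le_comap_nonZeroDivisors_of_injective _ (sub_injective F)) p 1
  rw [map_one, map_one, div_one, div_one] at this
  exact this

theorem swap_C (a : F) : swap F (RatFunc.C a) = RatFunc.C a := by
  rw [← RatFunc.algebraMap_C, swap_algebraMap, RatFunc.algebraMap_C]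
  simp [sub]

theorem swap_X : swap F RatFunc.X = (RatFunc.X)⁻¹ := by
  rw [← RatFunc.algebraMap_X, swap_algebraMap, RatFunc.algebraMap_X]
  simp [sub]

theorem swap_swap_algebraMap (p : F[X]) :
    swap F (swap F (algebraMap F[X] (RatFunc F) p)) = algebraMap F[X] (RatFunc F) p := by
  have h : ((swap F).comp (swap F)).comp (algebraMap F[X] (RatFunc F))
      = algebraMap F[X] (RatFunc F) := by
    apply Polynomial.ringHom_ext
    · intro a
      simp only [RingHom.comp_apply, RatFunc.algebraMap_C, swap_C]
    · simp only [RingHom.comp_apply, RatFunc.algebraMap_X, swap_X, map_inv₀, inv_inv]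
  exact congrArg (fun t => t p) h

theorem swap_swap (x : RatFunc F) : swap F (swap F x) = x := by
  induction x using RatFunc.induction_on with
  | f p q hq =>
    rw [map_div₀, map_div₀, swap_swap_algebraMap, swap_swap_algebraMap]

/-- The automorphism `X ↦ 1 / X`. -/
noncomputable def swapE : RatFunc F ≃+* RatFunc F :=
  { swap F with
    invFun := swap F
    left_inv := swap_swap F
    right_inv := swap_swap F }

end Swap

theorem oddHom_swap {F L : Type} [Field F] [Field L] (f : RatFunc F →+* L) (hf : OddHom f) :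
    OddHom (f.comp (swap F)) := by
  obtain ⟨hfin, hodd⟩ := hf
  have hc : (@algebraMap (RatFunc F) L _ _ (f.comp (swap F)).toAlgebra).comp
      ((swapE F).toRingHom) = ((RingEquiv.refl L).toRingHom).comp
        (@algebraMap (RatFunc F) L _ _ f.toAlgebra) := by
    refine RingHom.ext fun x => ?_
    exact congrArg f (swap_swap F x)
  constructor
  · exact @Module.Finite.of_equiv_equiv (RatFunc F) L (RatFunc F) L _ _ _ _ f.toAlgebra
      (f.comp (swap F)).toAlgebra (swapE F) (RingEquiv.refl L) hc hfin
  · have := @Algebra.finrank_eq_of_equiv_equiv (RatFunc F) L _ _ f.toAlgebra (RatFunc F) L _ _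
      (f.comp (swap F)).toAlgebra (swapE F) (RingEquiv.refl L) hc
    rw [← this]
    exact hodd

theorem norm_swap {F L : Type} [Field F] [Field L] (f : RatFunc F →+* L) (g : L) :
    @Algebra.norm (RatFunc F) L _ _ (f.comp (swap F)).toAlgebra g =
      swap F (@Algebra.norm (RatFunc F) L _ _ f.toAlgebra g) := by
  have hc : (@algebraMap (RatFunc F) L _ _ f.toAlgebra).comp
      ((swapE F : RatFunc F ≃+* RatFunc F) : RatFunc F →+* RatFunc F)
        = ((RingEquiv.refl L : L ≃+* L) : L →+* L).comp
        (@algebraMap (RatFunc F) L _ _ (f.comp (swap F)).toAlgebra) := by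
    refine RingHom.ext fun x => ?_
    rfl
  exact @Algebra.norm_eq_of_equiv_equiv (RatFunc F) L (RatFunc F) L _ _ _ _
    (f.comp (swap F)).toAlgebra f.toAlgebra (swapE F) (RingEquiv.refl L) hc g

theorem mult_X {F : Type} [Field F] (n : ℕ) {A : F[X]} (hA : A ≠ 0) :
    multiplicity (X : F[X]) (X ^ n * A.reverse) = n := by
  apply multiplicity_eq_of_dvd_of_not_dvd
  · exact dvd_mul_right _ _
  · intro hd
    rw [pow_succ] at hd
    have h1 : (X : F[X]) ∣ A.reverse :=
      (mul_dvd_mul_iff_left (pow_ne_zero n (X_ne_zero (R := F)))).1 hd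
    rw [X_dvd_iff, coeff_zero_reverse, leadingCoeff_eq_zero] at h1
    exact hA h1

end Pool.Agent.N825.WI.PAR

namespace Pool.Agent.N825.WI

open Polynomial PAR

theorem par (h : S_NORM) : S_PAR := by
  intro F L _ _ _ f hf g hg
  by_contra hno
  push Not at hno
  have hfX : f RatFunc.X ≠ 0 := by
    rw [Ne, map_eq_zero]
    exact RatFunc.X_ne_zero
  -- the norm as a quotient
  obtain ⟨A, B, hB, hAB⟩ := IsFractionRing.div_surjective (A := F[X])
    (@Algebra.norm (RatFunc F) L _ _ f.toAlgebra g)
  have hB0 : B ≠ 0 := nonZeroDivisors.ne_zero hB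
  have hN0 : @Algebra.norm (RatFunc F) L _ _ f.toAlgebra g ≠ 0 := by
    let := f.toAlgebra
    have := hf.1
    exact Algebra.norm_ne_zero_iff.2 hg
  have hB1 : algebraMap F[X] (RatFunc F) B ≠ 0 := by
    rw [Ne, map_eq_zero_iff _ (RatFunc.algebraMap_injective F)]
    exact hB0
  have hA1 : algebraMap F[X] (RatFunc F) A ≠ 0 := by
    intro h0
    rw [h0, zero_div] at hAB
    exact hN0 hAB.symm
  have hA0 : A ≠ 0 := by
    rintro rfl
    exact hA1 (map_zero _)
  have hAB' : algebraMap F[X] (RatFunc F) A =
      algebraMap F[X] (RatFunc F) B * @Algebra.norm (RatFunc F) L _ _ f.toAlgebra g := by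
    rw [← hAB, mul_div_cancel₀ _ hB1]
  -- finite places
  have h1 : ∀ p : F[X], p.Monic → Irreducible p → Odd p.natDegree →
      Even (multiplicity p (A * B)) := by
    intro p hp hirr hodd
    have hev := h F L f hf g hg p hp hirr hodd 0 (fun P hP => by
      have hev2 : p.eval₂ (f.comp RatFunc.C) (f RatFunc.X) =
          f (algebraMap F[X] (RatFunc F) p) := by
        rw [← Polynomial.hom_eval₂, ← RatFunc.algebraMap_X, ← RatFunc.algebraMap_eq_C,
          ← Polynomial.aeval_def, Polynomial.aeval_algebraMap_apply,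
          Polynomial.aeval_X_left_apply]
      have hne : f (algebraMap F[X] (RatFunc F) p) ≠ 0 := by
        rw [Ne, map_eq_zero, map_eq_zero_iff _ (RatFunc.algebraMap_injective F)]
        exact hirr.ne_zero
      have hnn := ord_nonneg P hfX hp (by rw [hev2]; exact hP) (by rw [hev2]; exact hne)
      have := hno P
      rw [min_eq_left hnn, add_zero] at this
      rw [this]
      simp) A B hA0 hB0 hAB'
    rw [add_zero] at hev
    have hfm : FiniteMultiplicity p (A * B) :=
      FiniteMultiplicity.of_not_isUnit hirr.not_isUnit (mul_ne_zero hA0 hB0)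
    rw [multiplicity_mul hirr.prime hfm]
    exact_mod_cast hev
  have h2 : Even (A.natDegree + B.natDegree) := by
    have := even_natDegree (mul_ne_zero hA0 hB0) h1
    rwa [natDegree_mul hA0 hB0] at this
  -- the infinite place
  have hcomp : (f.comp (swap F)).comp RatFunc.C = f.comp RatFunc.C := by
    refine RingHom.ext fun a => ?_
    exact congrArg f (swap_C F a)
  have hno' : ∀ (e : F →+* L), e = f.comp RatFunc.C → ∀ P : OddPlace e,
      P.ord g + min 0 (P.ord (f RatFunc.X)) = 0 := by
    rintro _ rfl P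
    exact hno P
  have hev := h F L (f.comp (swap F)) (oddHom_swap f hf) g hg X monic_X irreducible_X
    (by rw [natDegree_X]; exact odd_one) 1 (fun P hP => by
      have hX : (f.comp (swap F)) (algebraMap F[X] (RatFunc F) X) = (f RatFunc.X)⁻¹ := by
        rw [RingHom.comp_apply, RatFunc.algebraMap_X, swap_X, map_inv₀]
      rw [hX, ord_inv P hfX] at hP ⊢
      have := hno' _ hcomp P
      rw [min_eq_right (by linarith)] at this
      have h3 : P.ord g = - P.ord (f RatFunc.X) := by linarith
      rw [h3, one_mul]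
      exact ⟨_, rfl⟩)
    (X ^ B.natDegree * A.reverse) (X ^ A.natDegree * B.reverse)
    (mul_ne_zero (pow_ne_zero _ X_ne_zero) (by rwa [Ne, reverse_eq_zero]))
    (mul_ne_zero (pow_ne_zero _ X_ne_zero) (by rwa [Ne, reverse_eq_zero]))
    (by
      have hXn : (RatFunc.X : RatFunc F) ≠ 0 := RatFunc.X_ne_zero
      have hBr : algebraMap F[X] (RatFunc F) B.reverse ≠ 0 := by
        rw [Ne, map_eq_zero_iff _ (RatFunc.algebraMap_injective F), reverse_eq_zero]
        exact hB0
      rw [norm_swap, ← hAB, map_div₀, swap_algebraMap, swap_algebraMap, sub_apply, sub_apply,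
        map_mul, map_mul, map_pow, map_pow, RatFunc.algebraMap_X, inv_pow, inv_pow]
      field_simp)
  rw [mult_X _ hA0, mult_X _ hB0] at hev
  rcases h2 with ⟨r, hr⟩
  rcases hev with ⟨q, hq⟩
  omega

end Pool.Agent.N825.WI
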