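import Pool.Agent.N825.WI.Def

/-! The place of a maximal ideal of a Dedekind domain. -/

open IsDedekindDomain WithZero

namespace Pool.Agent.N825.WI.PP

variable {S L : Type} [CommRing S] [IsDedekindDomain S] [Field L]
    [Algebra S L] [IsFractionRing S L] (v : HeightOneSpectrum S)

/-- The order at `v`. -/
noncomputable def ord (x : L) : ℤ := - log (v.valuation L x)

theorem val_ne {x : L} (hx : x ≠ 0) : v.valuation L x ≠ 0 :=
  (Valuation.ne_zero_iff _).2 hx

theorem ord_mul (x y : L) (hx : x ≠ 0) (hy : y ≠ 0) :
    ord v (x * y) = ord v x + ord v y := by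
  unfold ord
  rw [map_mul, log_mul (val_ne v hx) (val_ne v hy)]
  ring

theorem nonneg_iff {x : L} (hx : x ≠ 0) : 0 ≤ ord v x ↔ v.valuation L x ≤ 1 := by
  unfold ord
  rw [neg_nonneg, ← log_le_log (val_ne v hx) one_ne_zero, log_one]

theorem pos_iff {x : L} (hx : x ≠ 0) : 0 < ord v x ↔ v.valuation L x < 1 := by
  unfold ord
  rw [neg_pos, ← log_lt_log (val_ne v hx) one_ne_zero, log_one]

/-- The valuation ring. -/
noncomputable def O : Subring L := (v.valuation L).integer

theorem mem_O {x : L} : x ∈ (O v : Subring L) ↔ v.valuation L x ≤ 1 := Iff.rfl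

/-- The maximal ideal. -/
noncomputable def m : Ideal (O v : Subring L) where
  carrier := {x | v.valuation L (x : L) < 1}
  add_mem' := by
    intro a b ha hb
    exact (v.valuation L).map_add_lt ha hb
  zero_mem' := by
    show v.valuation L ((0 : (O v : Subring L)) : L) < 1
    simp
  smul_mem' := by
    intro c x hx
    show v.valuation L ((c * x : (O v : Subring L)) : L) < 1
    have h1 : v.valuation L ((c * x : (O v : Subring L)) : L) =
        v.valuation L (c : L) * v.valuation L (x : L) := by
      rw [← map_mul]; rfl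
    rw [h1]
    exact mul_lt_one_of_nonneg_of_lt_one_right (mem_O v |>.1 c.2) zero_le hx

theorem mem_m {x : (O v : Subring L)} : x ∈ (m v : Ideal (O v : Subring L)) ↔
    v.valuation L (x : L) < 1 := Iff.rfl

/-- The map of `S` to the valuation ring. -/
noncomputable def phi : S →+* (O v : Subring L) :=
  (algebraMap S L).codRestrict (O v) (fun s => v.valuation_le_one s)

theorem phi_coe (s : S) : ((phi v s : (O v : Subring L)) : L) = algebraMap S L s := rfl

theorem comap_m : Ideal.comap (phi v) (m v : Ideal (O v : Subring L)) = v.asIdeal := by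
  ext s
  rw [Ideal.mem_comap, mem_m, phi_coe]
  exact v.valuation_lt_one_iff_mem s

/-- The map of the residue fields. -/
noncomputable def quo : S ⧸ v.asIdeal →+* (O v : Subring L) ⧸ (m v : Ideal (O v : Subring L)) :=
  Ideal.quotientMap (m v) (phi v) (comap_m v).ge

theorem quo_mk (s : S) : quo (L := L) v (Ideal.Quotient.mk v.asIdeal s) =
    Ideal.Quotient.mk (m v) (phi v s) := rfl

theorem quo_bij : Function.Bijective (quo (L := L) v) := by
  constructor
  · exact Ideal.quotientMap_injective' (comap_m v).le
  · intro y
    obtain ⟨x, rfl⟩ := Ideal.Quotient.mk_surjective y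
    obtain ⟨a, ha⟩ := v.exists_valuation_sub_lt_of_integer (K := L) (x := (x : L)) x.2 1
    refine ⟨Ideal.Quotient.mk _ a, ?_⟩
    rw [quo_mk, Ideal.Quotient.eq, mem_m]
    have h1 : (((phi v a - x : (O v : Subring L)) : (O v : Subring L)) : L) =
        algebraMap S L a - (x : L) := rfl
    rw [h1]
    simpa using ha

/-- The equivalence of the residue fields. -/
noncomputable def eqv : (S ⧸ v.asIdeal) ≃+* (O v : Subring L) ⧸ (m v : Ideal (O v : Subring L)) :=
  RingEquiv.ofBijective (quo v) (quo_bij v)

/-- The reduction. -/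
noncomputable def res : (O v : Subring L) →+* (S ⧸ v.asIdeal) :=
  (eqv v).symm.toRingHom.comp (Ideal.Quotient.mk (m v))

theorem res_phi (s : S) : res (L := L) v (phi v s) = Ideal.Quotient.mk v.asIdeal s := by
  show (eqv v).symm (Ideal.Quotient.mk (m v) (phi v s)) = _
  rw [RingEquiv.symm_apply_eq]
  rfl

theorem res_zero (x : (O v : Subring L)) : res v x = 0 ↔ v.valuation L (x : L) < 1 := by
  show (eqv v).symm (Ideal.Quotient.mk (m v) x) = 0 ↔ _
  rw [map_eq_zero_iff _ (eqv v).symm.injective, Ideal.Quotient.eq_zero_iff_mem, mem_m]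

end Pool.Agent.N825.WI.PP

namespace Pool.Agent.N825.WI

open PP

/-- The place of a maximal ideal of a Dedekind domain with odd residue degree. -/
theorem pp : S_PP := by
  intro F S L _ _ _ _ _ _ _ g P hP hne hodd
  let v : HeightOneSpectrum S := ⟨P, hP.isPrime, hne⟩
  obtain ⟨π, hπ⟩ := v.valuation_exists_uniformizer L
  have hπ0 : π ≠ 0 := by
    rintro rfl
    rw [map_zero] at hπ
    exact exp_ne_zero hπ.symm
  refine ⟨{ κ := S ⧸ P
            fieldκ := Ideal.Quotient.field P
            ord := PP.ord v
            ord_mul := PP.ord_mul v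
            O := PP.O v
            mem_O := fun x hx => ((PP.nonneg_iff v hx).trans (PP.mem_O v).symm).symm
            π := π
            π_ne := hπ0
            ord_π := ?_
            res := PP.res v
            res_eq_zero := ?_
            j := (Ideal.Quotient.mk P).comp g
            memF := fun a => v.valuation_le_one (g a)
            res_f := ?_
            odd := hodd }, ?_⟩
  · unfold PP.ord
    rw [hπ, log_exp, neg_neg]
  · intro x hx
    rw [PP.pos_iff v hx]
    exact PP.res_zero v x
  · intro a
    exact PP.res_phi v (g a)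
  · intro x hx n
    show (n : ℤ) ≤ - log (v.valuation L (algebraMap S L x)) ↔ _
    rw [v.valuation_of_algebraMap, le_neg, ← v.intValuation_le_pow_iff_mem,
      ← log_le_log (v.intValuation_ne_zero x hx) exp_ne_zero, log_exp]

end Pool.Agent.N825.WI
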