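import Pool.Agent.N825.WI.Def

/-! Number fields of odd degree. -/

namespace Pool.Agent.N825.WI

namespace QQ

open Polynomial

lemma gauss_pow (n : ℕ) : ∃ A B : ℚ, Complex.I ^ n = (A : ℂ) + B * Complex.I := by
  induction n with
  | zero => exact ⟨1, 0, by simp⟩
  | succ n ih =>
    obtain ⟨A, B, h⟩ := ih
    refine ⟨-B, A, ?_⟩
    rw [pow_succ, h]
    push_cast
    linear_combination (B : ℂ) * Complex.I_mul_I

lemma gauss (p : ℚ[X]) : ∃ A B : ℚ, aeval Complex.I p = (A : ℂ) + B * Complex.I := by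
  induction p using Polynomial.induction_on' with
  | add p q hp hq =>
    obtain ⟨A, B, h⟩ := hp
    obtain ⟨A', B', h'⟩ := hq
    refine ⟨A + A', B + B', ?_⟩
    rw [map_add, h, h']
    push_cast
    ring
  | monomial n a =>
    obtain ⟨A, B, h⟩ := gauss_pow n
    refine ⟨a * A, a * B, ?_⟩
    rw [aeval_monomial, h, eq_ratCast]
    push_cast
    ring

/-- an odd power of `3` is not a sum of two rational squares -/
lemma not_sum {d : ℕ} (hd : Odd d) (A B : ℚ) : (3 : ℚ) ^ d ≠ A ^ 2 + B ^ 2 := by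
  intro h
  obtain ⟨m, hm⟩ : ∃ m : ℕ, m = A.den * B.den := ⟨_, rfl⟩
  have hm0 : m ≠ 0 := by rw [hm]; exact mul_ne_zero A.den_ne_zero B.den_ne_zero
  have hA : (A.num : ℚ) = A * A.den := (Rat.mul_den_eq_num A).symm
  have hB : (B.num : ℚ) = B * B.den := (Rat.mul_den_eq_num B).symm
  have h1 : (3 : ℚ) ^ d * (m : ℚ) ^ 2 =
      ((A.num * B.den : ℤ) : ℚ) ^ 2 + ((B.num * A.den : ℤ) : ℚ) ^ 2 := by
    rw [h, hm]
    push_cast
    rw [hA, hB]
    ring
  have h2 : (3 : ℤ) ^ d * (m : ℤ) ^ 2 = (A.num * B.den) ^ 2 + (B.num * A.den) ^ 2 := by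
    exact_mod_cast h1
  have h3 : 3 ^ d * m ^ 2 = (A.num * B.den).natAbs ^ 2 + (B.num * A.den).natAbs ^ 2 := by
    zify
    rw [sq_abs, sq_abs]
    exact h2
  have h4 := (Nat.eq_sq_add_sq_iff).1 ⟨_, _, h3⟩
  have hn0 : 3 ^ d * m ^ 2 ≠ 0 := mul_ne_zero (by positivity) (pow_ne_zero _ hm0)
  have h5 : 3 ∈ (3 ^ d * m ^ 2).primeFactors := by
    rw [Nat.mem_primeFactors]
    refine ⟨by norm_num, ?_, hn0⟩
    have hd0 : d ≠ 0 := by rintro rfl; exact absurd hd (by decide)
    exact Dvd.dvd.mul_right (dvd_pow_self 3 hd0) _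
  have h6 := h4 3 h5 (by norm_num)
  have : Fact (Nat.Prime 3) := ⟨by norm_num⟩
  rw [padicValNat.mul (by positivity) (pow_ne_zero _ hm0), padicValNat.prime_pow,
    padicValNat.pow] at h6
  rw [Nat.even_add] at h6
  have h7 : Even (2 * padicValNat 3 m) := even_two_mul _
  exact (Nat.not_even_iff_odd.2 hd) (h6.2 h7)

/-- `3` is not a sum of two squares in a number field of odd degree -/
lemma not_three {L : Type} [Field L] [Algebra ℚ L] [Module.Finite ℚ L]
    (hodd : Odd (Module.finrank ℚ L)) (x y : L) : x ^ 2 + y ^ 2 ≠ 3 := by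
  intro h
  let b := Module.finBasis ℚ L
  obtain ⟨d, hd⟩ : ∃ d, d = Module.finrank ℚ L := ⟨_, rfl⟩
  let Mx := Algebra.leftMulMatrix b x
  let My := Algebra.leftMulMatrix b y
  have hcomm : Mx * My = My * Mx := by
    show Algebra.leftMulMatrix b x * Algebra.leftMulMatrix b y = _
    rw [← map_mul, mul_comm, map_mul]
  have hsum : Mx * Mx + My * My = 3 := by
    show Algebra.leftMulMatrix b x * Algebra.leftMulMatrix b x + _ = _
    rw [← map_mul, ← map_mul, ← map_add, ← sq, ← sq, h, map_ofNat]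
  -- complexification
  let ψ : Matrix (Fin (Module.finrank ℚ L)) (Fin (Module.finrank ℚ L)) ℚ →+*
      Matrix (Fin (Module.finrank ℚ L)) (Fin (Module.finrank ℚ L)) ℂ :=
    (algebraMap ℚ ℂ).mapMatrix
  let D : ℂ := (ψ Mx + Complex.I • ψ My).det
  have hconj : (ψ Mx - Complex.I • ψ My).det = star D := by
    have h1 : (starRingEnd ℂ).mapMatrix (ψ Mx + Complex.I • ψ My) =
        ψ Mx - Complex.I • ψ My := by
      ext i j
      simp [ψ, sub_eq_add_neg]
    rw [← h1, ← RingHom.map_det]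
    rfl
  have hprod : D * star D = 3 ^ Module.finrank ℚ L := by
    rw [← hconj]
    show (ψ Mx + Complex.I • ψ My).det * (ψ Mx - Complex.I • ψ My).det = _
    rw [← Matrix.det_mul]
    have h1 : (ψ Mx + Complex.I • ψ My) * (ψ Mx - Complex.I • ψ My) = 3 := by
      have h2 : (ψ Mx + Complex.I • ψ My) * (ψ Mx - Complex.I • ψ My) =
          ψ (Mx * Mx) + ψ (My * My) + Complex.I • (ψ (My * Mx) - ψ (Mx * My)) := by
        rw [map_mul, map_mul, map_mul, map_mul]
        simp only [add_mul, mul_sub, smul_mul_assoc, mul_smul_comm, smul_sub]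
        rw [smul_add, smul_smul, Complex.I_mul_I, neg_one_smul]
        abel
      rw [h2, hcomm, sub_self, smul_zero, add_zero, ← map_add, hsum, map_ofNat]
    rw [h1]
    have h3 : (3 : Matrix (Fin (Module.finrank ℚ L)) (Fin (Module.finrank ℚ L)) ℂ) =
        (3 : ℂ) • (1 : Matrix _ _ ℂ) := by
      ext i j
      rw [Matrix.smul_apply, Matrix.one_apply]
      by_cases hij : i = j
      · subst hij
        simp [Matrix.ofNat_apply]
      · simp [Matrix.ofNat_apply, hij]
    rw [h3, Matrix.det_smul, Matrix.det_one, mul_one, Fintype.card_fin]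
  -- `D` is a Gaussian rational number
  obtain ⟨A, B, hAB⟩ : ∃ A B : ℚ, D = (A : ℂ) + B * Complex.I := by
    obtain ⟨A, B, h1⟩ := gauss ((Polynomial.C.mapMatrix Mx + (X : ℚ[X]) •
      Polynomial.C.mapMatrix My).det)
    refine ⟨A, B, ?_⟩
    rw [← h1]
    have h2 : (aeval Complex.I : ℚ[X] →ₐ[ℚ] ℂ) ((Polynomial.C.mapMatrix Mx + (X : ℚ[X]) •
      Polynomial.C.mapMatrix My).det) = ((aeval Complex.I : ℚ[X] →ₐ[ℚ] ℂ) :
        ℚ[X] →+* ℂ) ((Polynomial.C.mapMatrix Mx + (X : ℚ[X]) •
      Polynomial.C.mapMatrix My).det) := rfl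
    rw [h2, RingHom.map_det]
    show Matrix.det _ = Matrix.det _
    congr 1
    ext i j
    simp only [ψ, Matrix.add_apply, Matrix.smul_apply, RingHom.mapMatrix_apply, Matrix.map_apply,
      map_add, smul_eq_mul, map_mul, RingHom.coe_coe, aeval_C, aeval_X]
  have h4 : (3 : ℂ) ^ Module.finrank ℚ L = (A : ℂ) ^ 2 + (B : ℂ) ^ 2 := by
    rw [← hprod, hAB]
    have h5 : star ((A : ℂ) + B * Complex.I) = (A : ℂ) - B * Complex.I := by
      simp [sub_eq_add_neg]
    rw [h5]
    linear_combination (-(B : ℂ) ^ 2) * Complex.I_sq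
  have h6 : (3 : ℚ) ^ Module.finrank ℚ L = A ^ 2 + B ^ 2 := by exact_mod_cast h4
  exact not_sum hodd A B h6

end QQ

open QQ

theorem qq : S_Q := by
  intro L _ f hf
  have hch : CharZero L := charZero_of_injective_ringHom f.injective
  have halg : f.toAlgebra = (DivisionRing.toRatAlgebra : Algebra ℚ L) := Subsingleton.elim _ _
  obtain ⟨hfin, hodd⟩ := hf
  rw [halg] at hfin hodd
  have hNF : NumberField L := ⟨⟩
  refine ⟨?_, ?_⟩
  · -- a real embedding
    have h1 := NumberField.InfinitePlace.card_add_two_mul_card_eq_rank L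
    have h2 : NumberField.InfinitePlace.nrRealPlaces L ≠ 0 := by
      intro h0
      rw [h0, zero_add] at h1
      rw [← h1] at hodd
      exact (Nat.not_odd_iff_even.2 (even_two_mul _)) hodd
    obtain ⟨w, hw⟩ : ∃ w : NumberField.InfinitePlace L, w.IsReal := by
      by_contra hcon
      push Not at hcon
      apply h2
      rw [NumberField.nrRealPlaces_eq_zero_iff]
      exact ⟨fun w => NumberField.InfinitePlace.not_isReal_iff_isComplex.1 (hcon w)⟩
    have ψ : L →+* ℝ := NumberField.InfinitePlace.embedding_of_isReal hw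
    intro n x hx i
    have h4 := congrArg ψ hx
    rw [map_sum, map_zero] at h4
    have h5 : ∀ j, ψ (x j ^ 2) = ψ (x j) ^ 2 := fun j => map_pow _ _ _
    have h6 := (Finset.sum_eq_zero_iff_of_nonneg (fun j _ => by rw [h5]; positivity)).1 h4 i
      (Finset.mem_univ i)
    rw [h5] at h6
    exact (map_eq_zero ψ).1 (pow_eq_zero_iff two_ne_zero |>.1 h6)
  · intro a b c d u v h
    by_contra hne
    have hab : a ^ 2 + b ^ 2 ≠ 0 := by
      intro h0
      rw [h0] at h
      apply hne
      rw [← h]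
      ring
    have hu : u ≠ 0 := by
      intro h0
      rw [h0] at h
      apply hne
      rw [← h]
      ring
    apply not_three hodd ((c * a + d * b) * v / ((a ^ 2 + b ^ 2) * u))
      ((c * b - d * a) * v / ((a ^ 2 + b ^ 2) * u))
    field_simp
    linear_combination (-(a ^ 2 + b ^ 2)) * h

end Pool.Agent.N825.WI
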