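import Pool.Agent.N825.WI.Def

/-! Reduction of weakly isotropic forms at a discrete place. -/

namespace Pool.Agent.N825.WI

namespace RED

variable {F L : Type} [Field F] [Field L] {f : F →+* L} (P : OddPlace f)

lemma ord_one : P.ord 1 = 0 := by
  have := P.ord_mul 1 1 one_ne_zero one_ne_zero
  rw [mul_one] at this
  omega

lemma ord_inv {x : L} (hx : x ≠ 0) : P.ord x⁻¹ = - P.ord x := by
  have := P.ord_mul x x⁻¹ hx (inv_ne_zero hx)
  rw [mul_inv_cancel₀ hx, ord_one] at this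
  omega

lemma ord_sq {x : L} (hx : x ≠ 0) : P.ord (x ^ 2) = 2 * P.ord x := by
  rw [sq, P.ord_mul x x hx hx]
  ring

lemma ord_zpow (n : ℤ) : P.ord (P.π ^ n) = n := by
  induction n using Int.induction_on with
  | zero => rw [zpow_zero, ord_one]
  | succ i ih =>
    rw [zpow_add_one₀ P.π_ne, P.ord_mul _ _ (zpow_ne_zero _ P.π_ne) P.π_ne, ih, P.ord_π]
  | pred i ih =>
    rw [zpow_sub_one₀ P.π_ne, P.ord_mul _ _ (zpow_ne_zero _ P.π_ne) (inv_ne_zero P.π_ne), ih,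
      ord_inv P P.π_ne, P.ord_π]
    ring

lemma ord_mul_zpow {x : L} (hx : x ≠ 0) (n : ℤ) : P.ord (x * P.π ^ n) = P.ord x + n := by
  rw [P.ord_mul _ _ hx (zpow_ne_zero _ P.π_ne), ord_zpow]

lemma mem_of {x : L} (h : x ≠ 0 → 0 ≤ P.ord x) : x ∈ P.O := by
  by_cases hx : x = 0
  · rw [hx]; exact P.O.zero_mem
  · exact (P.mem_O x hx).2 (h hx)

open Classical in
/-- the reduction -/
noncomputable def rho (x : L) : P.κ := if h : x ∈ P.O then P.res ⟨x, h⟩ else 0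

lemma rho_of_mem {x : L} (h : x ∈ P.O) : rho P x = P.res ⟨x, h⟩ := by
  unfold rho
  rw [dif_pos h]

lemma rho_coe (u : P.O) : rho P (u : L) = P.res u := rho_of_mem P u.2

lemma rho_zero : rho P 0 = 0 := by
  rw [rho_of_mem P P.O.zero_mem]
  exact map_zero P.res

lemma rho_add {x y : L} (hx : x ∈ P.O) (hy : y ∈ P.O) : rho P (x + y) = rho P x + rho P y := by
  rw [rho_of_mem P hx, rho_of_mem P hy, rho_of_mem P (P.O.add_mem hx hy), ← map_add]
  rfl

lemma rho_mul {x y : L} (hx : x ∈ P.O) (hy : y ∈ P.O) : rho P (x * y) = rho P x * rho P y := by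
  rw [rho_of_mem P hx, rho_of_mem P hy, rho_of_mem P (P.O.mul_mem hx hy), ← map_mul]
  rfl

lemma rho_sq {x : L} (hx : x ∈ P.O) : rho P (x ^ 2) = rho P x ^ 2 := by
  rw [sq, sq, rho_mul P hx hx]

lemma rho_sum {α : Type} (s : Finset α) (g : α → L) (h : ∀ a ∈ s, g a ∈ P.O) :
    rho P (∑ a ∈ s, g a) = ∑ a ∈ s, rho P (g a) := by
  classical
  induction s using Finset.induction_on with
  | empty => rw [Finset.sum_empty, Finset.sum_empty, rho_zero]
  | insert a s ha ih =>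
    rw [Finset.sum_insert ha, Finset.sum_insert ha, rho_add P (h a (Finset.mem_insert_self _ _))
      (P.O.sum_mem fun b hb => h b (Finset.mem_insert_of_mem hb)),
      ih fun b hb => h b (Finset.mem_insert_of_mem hb)]

lemma rho_eq_zero {x : L} (hx : x ≠ 0) (hO : x ∈ P.O) : rho P x = 0 ↔ 0 < P.ord x := by
  rw [rho_of_mem P hO]
  exact P.res_eq_zero ⟨x, hO⟩ hx

/-- the reduction of the linear form -/
lemma exists_w {ι : Type} [Fintype ι] (w : ι → L) (n : ι → ℤ) (hw : w ≠ 0) :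
    ∃ μ : ℤ, (∀ i, w i * P.π ^ (-n i - μ) ∈ P.O) ∧
      (fun i => rho P (w i * P.π ^ (-n i - μ))) ≠ 0 ∧
      ∀ i j, w i ≠ 0 → (w j = 0 ∨ P.ord (w i) - n i < P.ord (w j) - n j) →
        rho P (w j * P.π ^ (-n j - μ)) = 0 := by
  classical
  obtain ⟨i1, hi1⟩ := Function.ne_iff.1 hw
  obtain ⟨i0, hi0, hmin⟩ := Finset.exists_min_image (Finset.univ.filter fun i => w i ≠ 0)
    (fun i => P.ord (w i) - n i) ⟨i1, by simpa using hi1⟩
  have hi0' : w i0 ≠ 0 := (Finset.mem_filter.1 hi0).2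
  have hmin' : ∀ j, w j ≠ 0 → P.ord (w i0) - n i0 ≤ P.ord (w j) - n j := fun j hj =>
    hmin j (Finset.mem_filter.2 ⟨Finset.mem_univ _, hj⟩)
  have hord : ∀ j, w j ≠ 0 → P.ord (w j * P.π ^ (-n j - (P.ord (w i0) - n i0))) =
      (P.ord (w j) - n j) - (P.ord (w i0) - n i0) := by
    intro j hj
    rw [ord_mul_zpow P hj]
    ring
  have hne : ∀ (j : ι) (k : ℤ), w j ≠ 0 → w j * P.π ^ k ≠ 0 := fun j k hj =>
    mul_ne_zero hj (zpow_ne_zero _ P.π_ne)
  have hmem : ∀ i, w i * P.π ^ (-n i - (P.ord (w i0) - n i0)) ∈ P.O := by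
    intro i
    by_cases hi : w i = 0
    · rw [hi, zero_mul]; exact P.O.zero_mem
    · rw [P.mem_O _ (hne _ _ hi), hord i hi]
      have := hmin' i hi
      omega
  refine ⟨P.ord (w i0) - n i0, hmem, ?_, ?_⟩
  · rw [Function.ne_iff]
    refine ⟨i0, ?_⟩
    intro h
    have h1 := (rho_eq_zero P (hne _ _ hi0') (hmem i0)).1 h
    rw [hord i0 hi0'] at h1
    omega
  · intro i j hi hj
    by_cases hj0 : w j = 0
    · rw [hj0, zero_mul, rho_zero]
    · rcases hj with h | h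
      · exact absurd h hj0
      · rw [rho_eq_zero P (hne _ _ hj0) (hmem j), hord j hj0]
        have := hmin' i hi
        omega

/-- scaling a nonzero family -/
lemma exists_m {α : Type} [Finite α] (z : α → L) (hz : z ≠ 0) :
    ∃ m : ℤ, (∀ a, z a * P.π ^ (-m) ∈ P.O) ∧ ∃ a, rho P (z a * P.π ^ (-m)) ≠ 0 := by
  classical
  have := Fintype.ofFinite α
  obtain ⟨i1, hi1⟩ := Function.ne_iff.1 hz
  obtain ⟨i0, hi0, hmin⟩ := Finset.exists_min_image (Finset.univ.filter fun i => z i ≠ 0)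
    (fun i => P.ord (z i)) ⟨i1, by simpa using hi1⟩
  have hi0' : z i0 ≠ 0 := (Finset.mem_filter.1 hi0).2
  have hmin' : ∀ j, z j ≠ 0 → P.ord (z i0) ≤ P.ord (z j) := fun j hj =>
    hmin j (Finset.mem_filter.2 ⟨Finset.mem_univ _, hj⟩)
  have hmem : ∀ a, z a * P.π ^ (-(P.ord (z i0))) ∈ P.O := by
    intro a
    by_cases ha : z a = 0
    · rw [ha, zero_mul]; exact P.O.zero_mem
    · rw [P.mem_O _ (mul_ne_zero ha (zpow_ne_zero _ P.π_ne)), ord_mul_zpow P ha]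
      have := hmin' a ha
      omega
  refine ⟨P.ord (z i0), hmem, i0, ?_⟩
  intro h
  have h1 := (rho_eq_zero P (mul_ne_zero hi0' (zpow_ne_zero _ P.π_ne)) (hmem i0)).1 h
  rw [ord_mul_zpow P hi0'] at h1
  omega

/-- the linear relation -/
lemma lin {ι : Type} [Fintype ι] (w : ι → L) (n : ι → ℤ) (μ m : ℤ)
    (hW : ∀ i, w i * P.π ^ (-n i - μ) ∈ P.O) (y : ι → L)
    (hY : ∀ i, P.π ^ n i * y i * P.π ^ (-m) ∈ P.O) (h : ∑ i, w i * y i = 0) :
    ∑ i, rho P (w i * P.π ^ (-n i - μ)) * rho P (P.π ^ n i * y i * P.π ^ (-m)) = 0 := by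
  have h1 : ∑ i, (w i * P.π ^ (-n i - μ)) * (P.π ^ n i * y i * P.π ^ (-m)) =
      P.π ^ (-μ - m) * ∑ i, w i * y i := by
    rw [Finset.mul_sum]
    refine Finset.sum_congr rfl fun i _ => ?_
    have h2 : P.π ^ (-n i - μ) * P.π ^ n i * P.π ^ (-m) = P.π ^ (-μ - m) := by
      rw [← zpow_add₀ P.π_ne, ← zpow_add₀ P.π_ne]
      congr 1
      ring
    rw [← h2]
    ring
  rw [h, mul_zero] at h1
  have h3 := congrArg (rho P) h1
  rw [rho_zero, rho_sum P _ _ fun i _ => P.O.mul_mem (hW i) (hY i)] at h3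
  rw [← h3]
  exact Finset.sum_congr rfl fun i _ => (rho_mul P (hW i) (hY i)).symm

lemma quad {q y : L} {u : P.O} {n m : ℤ} (hq : q = P.π ^ (2 * n) * (u : L)) :
    (u : L) * (P.π ^ n * y * P.π ^ (-m)) ^ 2 = P.π ^ (-(2 * m)) * (q * y ^ 2) := by
  rw [hq]
  have h1 : (P.π ^ n) ^ 2 = P.π ^ (2 * n) := by
    rw [← zpow_natCast, ← zpow_mul, mul_comm]
    rfl
  have h2 : (P.π ^ (-m)) ^ 2 = P.π ^ (-(2 * m)) := by
    rw [← zpow_natCast, ← zpow_mul]
    congr 1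
    push_cast
    ring
  rw [mul_pow, mul_pow, h1, h2]
  ring

end RED

open RED

theorem red : S_RED := by
  intro F L _ _ f P ι _ q w n u hu hq hw hW
  obtain ⟨N, y, hy, hlin, hquad⟩ := hW
  obtain ⟨μ, h1, h2, h3⟩ := exists_w P w n hw
  refine ⟨_, h2, h3, ?_⟩
  -- scaling
  obtain ⟨m, hm1, ⟨k0, i0⟩, hm2⟩ := exists_m P (fun a : Fin N × ι => P.π ^ n a.2 * y a.1 a.2) (by
    intro h
    apply hy
    funext k i
    have h4 := congrFun h (k, i)
    exact (mul_eq_zero.1 h4).resolve_left (zpow_ne_zero _ P.π_ne))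
  have hmem : ∀ k i, P.π ^ n i * y k i * P.π ^ (-m) ∈ P.O := fun k i => hm1 (k, i)
  refine ⟨N, fun k i => rho P (P.π ^ n i * y k i * P.π ^ (-m)), ?_, ?_, ?_⟩
  · intro h
    exact hm2 (congrFun (congrFun h k0) i0)
  · intro k
    exact lin P w n μ m h1 (y k) (hmem k) (hlin k)
  · have h5 : ∑ k, ∑ i, (u i : L) * (P.π ^ n i * y k i * P.π ^ (-m)) ^ 2 = 0 := by
      have h6 : ∑ k, ∑ i, (u i : L) * (P.π ^ n i * y k i * P.π ^ (-m)) ^ 2 =
          P.π ^ (-(2 * m)) * ∑ k, ∑ i, q i * y k i ^ 2 := by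
        rw [Finset.mul_sum]
        refine Finset.sum_congr rfl fun k _ => ?_
        rw [Finset.mul_sum]
        exact Finset.sum_congr rfl fun i _ => quad P (hq i)
      rw [h6, hquad, mul_zero]
    have hmem2 : ∀ k i, (u i : L) * (P.π ^ n i * y k i * P.π ^ (-m)) ^ 2 ∈ P.O := fun k i =>
      P.O.mul_mem (u i).2 (P.O.pow_mem (hmem k i) 2)
    have h7 := congrArg (rho P) h5
    rw [rho_zero, rho_sum P _ _ fun k _ => P.O.sum_mem fun i _ => hmem2 k i] at h7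
    rw [← h7]
    refine Finset.sum_congr rfl fun k _ => ?_
    rw [rho_sum P _ _ fun i _ => hmem2 k i]
    refine Finset.sum_congr rfl fun i _ => ?_
    rw [rho_mul P (u i).2 (P.O.pow_mem (hmem k i) 2), rho_sq P (hmem k i), rho_coe]

theorem redo : S_REDO := by
  intro F L _ _ f P hre ι _ q₀ hq₀ hodd q w n u hu hq hw N y₀ y hy hlin hquad
  obtain ⟨μ, h1, h2, -⟩ := exists_w P w n hw
  refine ⟨_, h2, ?_⟩
  obtain ⟨n₀, hn₀⟩ := hodd
  -- the unit `u₀`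
  obtain ⟨u₀, hu₀⟩ : ∃ u₀ : L, u₀ = q₀ * P.π ^ (-(2 * n₀ + 1)) := ⟨_, rfl⟩
  have hu₀ne : u₀ ≠ 0 := by rw [hu₀]; exact mul_ne_zero hq₀ (zpow_ne_zero _ P.π_ne)
  have hu₀ord : P.ord u₀ = 0 := by
    rw [hu₀, ord_mul_zpow P hq₀, hn₀]
    ring
  have hu₀O : u₀ ∈ P.O := (P.mem_O u₀ hu₀ne).2 hu₀ord.ge
  have hq₀' : q₀ = P.π ^ (2 * n₀) * (P.π * u₀) := by
    rw [hu₀]
    have h4 : P.π ^ (2 * n₀) * P.π * P.π ^ (-(2 * n₀ + 1)) = 1 := by
      rw [← zpow_add_one₀ P.π_ne, ← zpow_add₀ P.π_ne, add_neg_cancel, zpow_zero]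
    calc q₀ = q₀ * (P.π ^ (2 * n₀) * P.π * P.π ^ (-(2 * n₀ + 1))) := by rw [h4, mul_one]
      _ = _ := by ring
  -- scaling
  set Z : Fin N × Option ι → L := fun a =>
    match a.2 with
    | none => P.π ^ n₀ * y₀ a.1
    | some i => P.π ^ n i * y a.1 i with hZ
  obtain ⟨m, hm1, ⟨k0, o0⟩, hm2⟩ := exists_m P Z (by
    intro h
    rcases hy with hy | hy
    · apply hy
      funext k
      have h4 := congrFun h (k, none)
      exact (mul_eq_zero.1 h4).resolve_left (zpow_ne_zero _ P.π_ne)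
    · apply hy
      funext k i
      have h4 := congrFun h (k, some i)
      exact (mul_eq_zero.1 h4).resolve_left (zpow_ne_zero _ P.π_ne))
  have hmem : ∀ k i, P.π ^ n i * y k i * P.π ^ (-m) ∈ P.O := fun k i => hm1 (k, some i)
  have hmem0 : ∀ k, P.π ^ n₀ * y₀ k * P.π ^ (-m) ∈ P.O := fun k => hm1 (k, none)
  have hπO : P.π ∈ P.O := (P.mem_O _ P.π_ne).2 (by rw [P.ord_π]; norm_num)
  have hπu : P.π * u₀ ∈ P.O := P.O.mul_mem hπO hu₀O
  have hmem2 : ∀ k i, (u i : L) * (P.π ^ n i * y k i * P.π ^ (-m)) ^ 2 ∈ P.O := fun k i =>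
    P.O.mul_mem (u i).2 (P.O.pow_mem (hmem k i) 2)
  -- the scaled equation
  have h5 : ∑ k, (P.π * u₀ * (P.π ^ n₀ * y₀ k * P.π ^ (-m)) ^ 2 +
      ∑ i, (u i : L) * (P.π ^ n i * y k i * P.π ^ (-m)) ^ 2) = 0 := by
    have h6 : ∑ k, (P.π * u₀ * (P.π ^ n₀ * y₀ k * P.π ^ (-m)) ^ 2 +
        ∑ i, (u i : L) * (P.π ^ n i * y k i * P.π ^ (-m)) ^ 2) =
        P.π ^ (-(2 * m)) * ∑ k, (q₀ * y₀ k ^ 2 + ∑ i, q i * y k i ^ 2) := by
      rw [Finset.mul_sum]
      refine Finset.sum_congr rfl fun k _ => ?_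
      rw [mul_add, Finset.mul_sum]
      congr 1
      · exact quad P (u := ⟨P.π * u₀, hπu⟩) hq₀'
      · exact Finset.sum_congr rfl fun i _ => quad P (hq i)
    rw [h6, hquad, mul_zero]
  by_cases hcase : ∃ k i, rho P (P.π ^ n i * y k i * P.π ^ (-m)) ≠ 0
  · obtain ⟨k1, i1, hki⟩ := hcase
    refine ⟨N, fun k i => rho P (P.π ^ n i * y k i * P.π ^ (-m)), ?_, ?_, ?_⟩
    · intro h
      exact hki (congrFun (congrFun h k1) i1)
    · intro k
      exact lin P w n μ m h1 (y k) (hmem k) (hlin k)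
    · have h7 := congrArg (rho P) h5
      rw [rho_zero, rho_sum P _ _ fun k _ => P.O.add_mem (P.O.mul_mem hπu
        (P.O.pow_mem (hmem0 k) 2)) (P.O.sum_mem fun i _ => hmem2 k i)] at h7
      rw [← h7]
      refine Finset.sum_congr rfl fun k _ => ?_
      rw [rho_add P (P.O.mul_mem hπu (P.O.pow_mem (hmem0 k) 2))
        (P.O.sum_mem fun i _ => hmem2 k i), rho_mul P hπu (P.O.pow_mem (hmem0 k) 2),
        rho_mul P hπO hu₀O, (rho_eq_zero P P.π_ne hπO).2 (by rw [P.ord_π]; norm_num), zero_mul,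
        zero_mul, zero_add, rho_sum P _ _ fun i _ => hmem2 k i]
      refine Finset.sum_congr rfl fun i _ => ?_
      rw [rho_mul P (u i).2 (P.O.pow_mem (hmem k i) 2), rho_sq P (hmem k i), rho_coe]
  · exfalso
    push Not at hcase
    -- dividing by `π`
    have hdiv : ∀ k i, (P.π ^ n i * y k i * P.π ^ (-m)) ^ 2 * P.π⁻¹ ∈ P.O ∧
        rho P ((P.π ^ n i * y k i * P.π ^ (-m)) ^ 2 * P.π⁻¹) = 0 := by
      intro k i
      obtain ⟨x, hx⟩ : ∃ x, x = P.π ^ n i * y k i * P.π ^ (-m) := ⟨_, rfl⟩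
      have hc := hcase k i
      have hm3 := hmem k i
      rw [← hx] at hc hm3 ⊢
      by_cases hx0 : x = 0
      · rw [hx0, zero_pow two_ne_zero, zero_mul]
        exact ⟨P.O.zero_mem, rho_zero P⟩
      · have h8 := (rho_eq_zero P hx0 hm3).1 hc
        have h9 : x ^ 2 * P.π⁻¹ ≠ 0 := mul_ne_zero (pow_ne_zero _ hx0) (inv_ne_zero P.π_ne)
        have h10 : P.ord (x ^ 2 * P.π⁻¹) = 2 * P.ord x - 1 := by
          rw [P.ord_mul _ _ (pow_ne_zero _ hx0) (inv_ne_zero P.π_ne), ord_sq P hx0,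
            ord_inv P P.π_ne, P.ord_π]
          ring
        have h11 : x ^ 2 * P.π⁻¹ ∈ P.O := (P.mem_O _ h9).2 (by rw [h10]; omega)
        exact ⟨h11, (rho_eq_zero P h9 h11).2 (by rw [h10]; omega)⟩
    have h6 : ∑ k, (u₀ * (P.π ^ n₀ * y₀ k * P.π ^ (-m)) ^ 2 +
        ∑ i, (u i : L) * ((P.π ^ n i * y k i * P.π ^ (-m)) ^ 2 * P.π⁻¹)) = 0 := by
      have h7 : ∑ k, (u₀ * (P.π ^ n₀ * y₀ k * P.π ^ (-m)) ^ 2 +
          ∑ i, (u i : L) * ((P.π ^ n i * y k i * P.π ^ (-m)) ^ 2 * P.π⁻¹)) =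
          P.π⁻¹ * ∑ k, (P.π * u₀ * (P.π ^ n₀ * y₀ k * P.π ^ (-m)) ^ 2 +
          ∑ i, (u i : L) * (P.π ^ n i * y k i * P.π ^ (-m)) ^ 2) := by
        rw [Finset.mul_sum]
        refine Finset.sum_congr rfl fun k _ => ?_
        rw [mul_add, Finset.mul_sum]
        congr 1
        · rw [← mul_assoc, ← mul_assoc, inv_mul_cancel₀ P.π_ne, one_mul]
        · exact Finset.sum_congr rfl fun i _ => by ring
      rw [h7, h5, mul_zero]
    have h7 := congrArg (rho P) h6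
    have hmem3 : ∀ k i, (u i : L) * ((P.π ^ n i * y k i * P.π ^ (-m)) ^ 2 * P.π⁻¹) ∈ P.O :=
      fun k i => P.O.mul_mem (u i).2 (hdiv k i).1
    rw [rho_zero, rho_sum P _ _ fun k _ => P.O.add_mem (P.O.mul_mem hu₀O
      (P.O.pow_mem (hmem0 k) 2)) (P.O.sum_mem fun i _ => hmem3 k i)] at h7
    have h8 : ∀ k, rho P (u₀ * (P.π ^ n₀ * y₀ k * P.π ^ (-m)) ^ 2 +
        ∑ i, (u i : L) * ((P.π ^ n i * y k i * P.π ^ (-m)) ^ 2 * P.π⁻¹)) =
        rho P u₀ * rho P (P.π ^ n₀ * y₀ k * P.π ^ (-m)) ^ 2 := by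
      intro k
      rw [rho_add P (P.O.mul_mem hu₀O (P.O.pow_mem (hmem0 k) 2))
        (P.O.sum_mem fun i _ => hmem3 k i), rho_mul P hu₀O (P.O.pow_mem (hmem0 k) 2),
        rho_sq P (hmem0 k), rho_sum P _ _ fun i _ => hmem3 k i]
      rw [Finset.sum_eq_zero, add_zero]
      intro i _
      rw [rho_mul P (u i).2 (hdiv k i).1, (hdiv k i).2, mul_zero]
    rw [Finset.sum_congr rfl fun k _ => h8 k, ← Finset.mul_sum] at h7
    have hu₀r : rho P u₀ ≠ 0 := by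
      intro h
      have := (rho_eq_zero P hu₀ne hu₀O).1 h
      omega
    have h9 := (mul_eq_zero.1 h7).resolve_left hu₀r
    have h10 := hre N _ h9
    -- all reductions vanish
    rcases o0 with _ | i
    · exact hm2 (h10 k0)
    · exact hm2 (hcase k0 i)

end Pool.Agent.N825.WI
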