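import Pool.Agent.N825.WI.Ev

/-! The tower of rational function fields. -/

namespace Pool.Agent.N825.WI

open RatFunc

lemma X_sub_ne {F : Type} [Field F] (a : F) : (RatFunc.X - RatFunc.C a : RatFunc F) ≠ 0 := by
  rw [← RatFunc.algebraMap_X, ← RatFunc.algebraMap_C, ← map_sub]
  exact (map_ne_zero_iff _ (IsFractionRing.injective (Polynomial F) (RatFunc F))).2
    (Polynomial.X_sub_C_ne_zero a)

lemma one_sub_X_ne {F : Type} [Field F] : (1 - RatFunc.X : RatFunc F) ≠ 0 := by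
  have := neg_ne_zero.2 (X_sub_ne (1 : F))
  rwa [neg_sub, map_one] at this

lemma RO.real {F : Type} [Field F] (h : RO F) : FReal F := by
  refine h _ (RingHom.id _) ⟨?_, ?_⟩
  · exact Module.Finite.self _
  · rw [show @Module.finrank F F _ _ ((RingHom.id F).toAlgebra).toModule = 1 from
      Module.finrank_self _]
    exact odd_one

/-- Assertion 1 (for the parameter `p`). -/
def H1 (F : Type) [Field F] (p : F) : Prop :=
  ∀ (L : Type) [Field L] (f : F →+* L), OddHom f → ∀ R s₂ : L, IsD2 R → IsD2 s₂ →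
    ∀ w : Fin 3 → L, w ≠ 0 → (w 0 = 0 ∨ w 1 = 0) →
      ¬ WIker ![3 * f p * s₂, 3 * (1 - f p), -R] w

/-- Assertion 2. -/
def H2 (F : Type) [Field F] (p t : F) : Prop :=
  ∀ (L : Type) [Field L] (f : F →+* L), OddHom f → ∀ R : L, IsD2 R →
    ∀ w : Fin 3 → L, w ≠ 0 → ¬ WIker ![3 * f p * (f t ^ 2 + 1), 3 * (1 - f p), -R] w

/-- Assertion 3. -/
def H3 (F : Type) [Field F] (p t q : F) : Prop :=
  ∀ (L : Type) [Field L] (f : F →+* L), OddHom f → ∀ s₁ : L, IsD2 s₁ →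
    ∀ w : Fin 4 → L, w ≠ 0 → (w 2 = 0 ∨ w 3 = 0) →
      ¬ WIker ![3 * f p * (f t ^ 2 + 1), 3 * (1 - f p), -(f q * s₁), -(1 - f q)] w

/-- Assertion 4. -/
def H4 (F : Type) [Field F] (p t q s : F) : Prop :=
  ∀ (L : Type) [Field L] (f : F →+* L), OddHom f →
    ∀ w : Fin 4 → L, w ≠ 0 →
      ¬ WIker ![3 * f p * (f t ^ 2 + 1), 3 * (1 - f p), -(f q * (f s ^ 2 + 1)), -(1 - f q)] w

/-- First step: over `ℚ(p)`, one of the first two coordinates of the linear form vanishes. -/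
lemma d1 (hRO : S_REDO) (hO : S_OVER) (hQ : S_Q) : H1 (RatFunc ℚ) X := by
  intro L _ f hf R s₂ hR2 hs w hw h01 hwi
  rcases h01 with h0 | h1
  · obtain ⟨P, hpos, hodd⟩ := hO ℚ L f hf 0
    have hX : f (X - C (0 : ℚ)) = f X := by rw [map_zero, sub_zero]
    rw [hX] at hodd
    obtain ⟨hκ, hq⟩ := hQ P.κ P.j P.odd
    have h3 := three_ne hκ
    obtain ⟨x, hx, hxr⟩ := res_at P hpos
    have hfX : f X ≠ 0 := by rw [← hX]; exact (map_ne_zero f).2 (X_sub_ne 0)
    obtain ⟨m, σ, -, hσ⟩ := ev_d2 hκ hs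
    obtain ⟨m', ρ, hρD, hρ⟩ := ev_d2 hκ hR2
    have h3c : Ev P (3 : L) 0 (3 : P.κ) :=
      (Ev.const (P := P) (a := (3 : ℚ)) (by norm_num)).congr (by simp) rfl (by simp)
    have h3L : (3 : L) ≠ 0 := h3c.ne_zero
    have hu : Ev P (1 - f X) 0 (1 : P.κ) :=
      (Ev.unit (P := P) (x := 1 - x) (ρ := 1) (by rw [map_sub, map_one, hxr]; simp)
        one_ne_zero).congr (by push_cast; rw [hx]) rfl rfl
    obtain ⟨w', hw', hwi'⟩ := redo' (P := P) hRO hκ (0 : Fin 3) h0 hw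
      (by
        show 3 * f X * s₂ ≠ 0
        exact mul_ne_zero (mul_ne_zero h3L hfX) hσ.ne_zero)
      (by
        show Odd (P.ord (3 * f X * s₂))
        rw [P.ord_mul _ _ (mul_ne_zero h3L hfX) hσ.ne_zero, P.ord_mul _ _ h3L hfX,
          h3c.ord, hσ.ord]
        simpa [parity_simps] using hodd)
      (n := ![0 + 0, m']) (ρ := ![3 * 1, -ρ])
      (by
        intro i
        fin_cases i
        · exact h3c.mul hu
        · exact hρ.neg) hwi
    exact base2 hκ hq isD2_one hρD hw' hwi'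
  · obtain ⟨P, hpos, hodd⟩ := hO ℚ L f hf 1
    obtain ⟨hκ, hq⟩ := hQ P.κ P.j P.odd
    have h3 := three_ne hκ
    obtain ⟨x, hx, hxr⟩ := res_at P hpos
    rw [map_one] at hxr
    have hfX : f (X - C (1 : ℚ)) ≠ 0 := (map_ne_zero f).2 (X_sub_ne 1)
    obtain ⟨m, σ, hσD, hσ⟩ := ev_d2 hκ hs
    obtain ⟨m', ρ, hρD, hρ⟩ := ev_d2 hκ hR2
    have h3c : Ev P (3 : L) 0 (3 : P.κ) :=
      (Ev.const (P := P) (a := (3 : ℚ)) (by norm_num)).congr (by simp) rfl (by simp)
    have h3L : (3 : L) ≠ 0 := h3c.ne_zero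
    have hu : Ev P (f X) 0 (1 : P.κ) :=
      (Ev.unit (P := P) (x := x) hxr one_ne_zero).congr hx.symm rfl rfl
    have he : 3 * (1 - f X) = 3 * -f (X - C (1 : ℚ)) := by
      rw [map_sub, map_one, map_one]; ring
    obtain ⟨w', hw', hwi'⟩ := redo' (P := P) hRO hκ (1 : Fin 3) h1 hw
      (by
        show 3 * (1 - f X) ≠ 0
        rw [he]
        exact mul_ne_zero h3L (neg_ne_zero.2 hfX))
      (by
        show Odd (P.ord (3 * (1 - f X)))
        rw [he, P.ord_mul _ _ h3L (neg_ne_zero.2 hfX), h3c.ord, P.ord_neg hfX]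
        simpa using hodd)
      (n := ![0 + 0 + m, m']) (ρ := ![3 * 1 * σ, -ρ])
      (by
        intro i
        fin_cases i
        · exact (h3c.mul hu).mul hσ
        · exact hρ.neg) hwi
    have : (![3 * 1 * σ, -ρ] : Fin 2 → P.κ) = ![3 * σ, -ρ] := by rw [mul_one]
    rw [this] at hwi'
    exact base2 hκ hq hσD hρD hw' hwi'

/-- The common step: choice of a place by the parity lemma. -/
lemma choose_place (hO : S_OVER) (hP : S_PAR) {F L : Type} [Field F] [CharZero F] [Field L]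
    (f : RatFunc F →+* L) (hf : OddHom f) (a b : L) :
    ∃ P : OddPlace (f.comp RatFunc.C), a = 0 ∨ b = 0 ∨
      P.ord b - P.ord a + min 0 (P.ord (f X)) ≠ 0 := by
  by_cases ha : a = 0
  · obtain ⟨P, -, -⟩ := hO F L f hf 0
    exact ⟨P, Or.inl ha⟩
  · by_cases hb : b = 0
    · obtain ⟨P, -, -⟩ := hO F L f hf 0
      exact ⟨P, Or.inr (Or.inl hb)⟩
    · obtain ⟨P, hPn⟩ := hP F L f hf (b * a⁻¹) (mul_ne_zero hb (inv_ne_zero ha))
      refine ⟨P, Or.inr (Or.inr ?_)⟩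
      rw [P.ord_mul _ _ hb (inv_ne_zero ha), P.ord_inv ha] at hPn
      intro h; apply hPn; omega

/-- The sum `t^2 + 1` at a place. -/
lemma ev_t {F L : Type} [Field F] [Field L] {f : F →+* L} (P : OddPlace f) (hκ : FReal P.κ)
    {t : L} (ht : t ≠ 0) :
    ∃ σ : P.κ, IsD2 σ ∧ Ev P (t ^ 2 + 1) (min 0 (P.ord t)) σ := by
  obtain ⟨n, u, h1, h2, h3, h4, h5, h6⟩ := P.d2 hκ (a := t) (b := 1) (Or.inl ht)
  have hn : n = min 0 (P.ord t) := by
    have h4' := h4 ht
    have h5' := h5 one_ne_zero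
    rw [P.ord_one] at h5'
    rcases h6 with ⟨-, h6⟩ | ⟨-, h6⟩
    · omega
    · rw [P.ord_one] at h6; omega
  subst hn
  refine ⟨P.res u, h1, h2, u, rfl, ?_⟩
  rw [← h3]; ring

/-- Second step. -/
lemma d2 (hR : S_RED) (hO : S_OVER) (hP : S_PAR) {F : Type} [Field F] [CharZero F]
    (hF : RO F) {p : F} (hp : p ≠ 0) (hp1 : 1 - p ≠ 0) (h1 : H1 F p) :
    H2 (RatFunc F) (C p) X := by
  intro L _ f hf R hR2 w hw hwi
  obtain ⟨P, hPn⟩ := choose_place hO hP f hf (w 0) (w 1)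
  have hκ : FReal P.κ := hF P.κ P.j P.odd
  have hfX : f X ≠ 0 := (map_ne_zero f).2 RatFunc.X_ne_zero
  have h3c : Ev P (3 : L) 0 (3 : P.κ) :=
    (Ev.const (P := P) (a := (3 : F)) (three_ne hF.real)).congr
      (map_ofNat _ 3).symm rfl (map_ofNat _ 3).symm
  have hpc : Ev P (f (C p)) 0 (P.j p) := Ev.const (P := P) hp
  have hp1 : Ev P (1 - f (C p)) 0 (1 - P.j p) :=
    (Ev.const (P := P) hp1).congr (by simp) rfl (by simp)
  obtain ⟨σ, hσD, hσ⟩ := ev_t P hκ hfX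
  obtain ⟨m', ρ, hρD, hρ⟩ := ev_d2 hκ hR2
  obtain ⟨w', hw', hz, hwi'⟩ := red' (P := P) hR
    (n := ![0 + 0 + min 0 (P.ord (f X)), 0 + 0, m'])
    (ρ := ![3 * P.j p * σ, 3 * (1 - P.j p), -ρ])
    (by
      intro i
      fin_cases i
      · exact (h3c.mul hpc).mul hσ
      · exact h3c.mul hp1
      · exact hρ.neg) hw hwi
  refine h1 P.κ P.j P.odd ρ σ hρD hσD w' hw' ?_ hwi'
  have hex : ∃ i, w i ≠ 0 := by
    by_contra hcon
    push Not at hcon
    exact hw (funext hcon)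
  obtain ⟨i, hi⟩ := hex
  rcases hPn with h | h | h
  · exact Or.inl (hz i 0 hi (Or.inl h))
  · exact Or.inr (hz i 1 hi (Or.inl h))
  · by_cases ha : w 0 = 0
    · exact Or.inl (hz i 0 hi (Or.inl ha))
    by_cases hb : w 1 = 0
    · exact Or.inr (hz i 1 hi (Or.inl hb))
    rcases lt_trichotomy (P.ord (w 0) - (0 + 0 + min 0 (P.ord (f X)))) (P.ord (w 1) - (0 + 0))
      with hlt | heq | hgt
    · exact Or.inr (hz 0 1 ha (Or.inr hlt))
    · exfalso; apply h; omega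
    · exact Or.inl (hz 1 0 hb (Or.inr hgt))

/-- Third step. -/
lemma d3 (hRO : S_REDO) (hO : S_OVER) {F : Type} [Field F] [CharZero F]
    (hF : RO F) {p t : F} (hp : p ≠ 0) (hp1 : 1 - p ≠ 0) (h2 : H2 F p t) :
    H3 (RatFunc F) (C p) (C t) X := by
  intro L _ f hf s₁ hs w hw h23 hwi
  have h3F := three_ne hF.real
  have ht1 : t ^ 2 + 1 ≠ 0 := by
    have := hF.real.add_sq (a := t) (b := 1) (Or.inr one_ne_zero)
    simpa using this
  have hc0 : (3 * p * (t ^ 2 + 1) : F) ≠ 0 := mul_ne_zero (mul_ne_zero h3F hp) ht1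
  have hc1 : (3 * (1 - p) : F) ≠ 0 := mul_ne_zero h3F hp1
  rcases h23 with h0 | h1'
  · obtain ⟨P, hpos, hodd⟩ := hO _ L f hf 0
    have hX : f (X - C (0 : F)) = f X := by rw [map_zero, sub_zero]
    rw [hX] at hodd
    have hκ : FReal P.κ := hF P.κ P.j P.odd
    obtain ⟨x, hx, hxr⟩ := res_at P hpos
    have hfX : f X ≠ 0 := by rw [← hX]; exact (map_ne_zero f).2 (X_sub_ne 0)
    obtain ⟨m, σ, -, hσ⟩ := ev_d2 hκ hs
    have e0 : Ev P (3 * f (C p) * (f (C t) ^ 2 + 1)) 0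
        (3 * P.j p * (P.j t ^ 2 + 1)) :=
      (Ev.const (P := P) hc0).congr
        (by rw [map_mul, map_mul, map_add, map_pow, map_one, map_ofNat]; rfl) rfl
        (by rw [map_mul, map_mul, map_add, map_pow, map_one, map_ofNat])
    have e1 : Ev P (3 * (1 - f (C p))) 0 (3 * (1 - P.j p)) :=
      (Ev.const (P := P) hc1).congr
        (by rw [map_mul, map_sub, map_one, map_ofNat]; rfl) rfl
        (by rw [map_mul, map_sub, map_one, map_ofNat])
    have hu : Ev P (1 - f X) 0 (1 : P.κ) :=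
      (Ev.unit (P := P) (x := 1 - x) (ρ := 1) (by rw [map_sub, map_one, hxr]; simp)
        one_ne_zero).congr (by push_cast; rw [hx]) rfl rfl
    obtain ⟨w', hw', hwi'⟩ := redo' (P := P) hRO hκ (2 : Fin 4) h0 hw
      (by
        show -(f X * s₁) ≠ 0
        exact neg_ne_zero.2 (mul_ne_zero hfX hσ.ne_zero))
      (by
        show Odd (P.ord (-(f X * s₁)))
        rw [P.ord_neg (mul_ne_zero hfX hσ.ne_zero), P.ord_mul _ _ hfX hσ.ne_zero, hσ.ord]
        simpa [parity_simps] using hodd)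
      (n := ![0, 0, 0]) (ρ := ![3 * P.j p * (P.j t ^ 2 + 1), 3 * (1 - P.j p), -1])
      (by
        intro i
        fin_cases i
        · exact e0
        · exact e1
        · exact hu.neg) hwi
    exact h2 P.κ P.j P.odd 1 isD2_one w' hw' hwi'
  · obtain ⟨P, hpos, hodd⟩ := hO _ L f hf 1
    have hκ : FReal P.κ := hF P.κ P.j P.odd
    obtain ⟨x, hx, hxr⟩ := res_at P hpos
    rw [map_one] at hxr
    have hfX : f (X - C (1 : F)) ≠ 0 := (map_ne_zero f).2 (X_sub_ne 1)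
    obtain ⟨m, σ, hσD, hσ⟩ := ev_d2 hκ hs
    have e0 : Ev P (3 * f (C p) * (f (C t) ^ 2 + 1)) 0
        (3 * P.j p * (P.j t ^ 2 + 1)) :=
      (Ev.const (P := P) hc0).congr
        (by rw [map_mul, map_mul, map_add, map_pow, map_one, map_ofNat]; rfl) rfl
        (by rw [map_mul, map_mul, map_add, map_pow, map_one, map_ofNat])
    have e1 : Ev P (3 * (1 - f (C p))) 0 (3 * (1 - P.j p)) :=
      (Ev.const (P := P) hc1).congr
        (by rw [map_mul, map_sub, map_one, map_ofNat]; rfl) rfl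
        (by rw [map_mul, map_sub, map_one, map_ofNat])
    have hu : Ev P (f X) 0 (1 : P.κ) :=
      (Ev.unit (P := P) (x := x) hxr one_ne_zero).congr hx.symm rfl rfl
    have he : -(1 - f X) = f (X - C (1 : F)) := by
      rw [map_sub, map_one, map_one]; ring
    obtain ⟨w', hw', hwi'⟩ := redo' (P := P) hRO hκ (3 : Fin 4) h1' hw
      (by
        show -(1 - f X) ≠ 0
        rw [he]; exact hfX)
      (by
        show Odd (P.ord (-(1 - f X)))
        rw [he]; exact hodd)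
      (n := ![0, 0, 0 + m]) (ρ := ![3 * P.j p * (P.j t ^ 2 + 1), 3 * (1 - P.j p),
        -(1 * σ)])
      (by
        intro i
        fin_cases i
        · exact e0
        · exact e1
        · exact (hu.mul hσ).neg) hwi
    rw [one_mul] at hwi'
    exact h2 P.κ P.j P.odd σ hσD w' hw' hwi'

/-- Fourth step. -/
lemma d4 (hR : S_RED) (hO : S_OVER) (hP : S_PAR) {F : Type} [Field F] [CharZero F]
    (hF : RO F) {p t q : F} (hp : p ≠ 0) (hp1 : 1 - p ≠ 0) (hq : q ≠ 0) (hq1 : 1 - q ≠ 0)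
    (h3 : H3 F p t q) :
    H4 (RatFunc F) (C p) (C t) (C q) X := by
  intro L _ f hf w hw hwi
  obtain ⟨P, hPn⟩ := choose_place hO hP f hf (w 2) (w 3)
  have hκ : FReal P.κ := hF P.κ P.j P.odd
  have hfX : f X ≠ 0 := (map_ne_zero f).2 RatFunc.X_ne_zero
  have h3F := three_ne hF.real
  have ht1 : t ^ 2 + 1 ≠ 0 := by
    have := hF.real.add_sq (a := t) (b := 1) (Or.inr one_ne_zero)
    simpa using this
  have hc0 : (3 * p * (t ^ 2 + 1) : F) ≠ 0 := mul_ne_zero (mul_ne_zero h3F hp) ht1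
  have hc1 : (3 * (1 - p) : F) ≠ 0 := mul_ne_zero h3F hp1
  obtain ⟨σ, hσD, hσ⟩ := ev_t P hκ hfX
  have e0 : Ev P (3 * f (C p) * (f (C t) ^ 2 + 1)) 0
      (3 * P.j p * (P.j t ^ 2 + 1)) :=
    (Ev.const (P := P) hc0).congr
        (by rw [map_mul, map_mul, map_add, map_pow, map_one, map_ofNat]; rfl) rfl
        (by rw [map_mul, map_mul, map_add, map_pow, map_one, map_ofNat])
  have e1 : Ev P (3 * (1 - f (C p))) 0 (3 * (1 - P.j p)) :=
    (Ev.const (P := P) hc1).congr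
        (by rw [map_mul, map_sub, map_one, map_ofNat]; rfl) rfl
        (by rw [map_mul, map_sub, map_one, map_ofNat])
  have hpc : Ev P (f (C q)) 0 (P.j q) := Ev.const (P := P) hq
  have hp1 : Ev P (1 - f (C q)) 0 (1 - P.j q) :=
    (Ev.const (P := P) hq1).congr (by simp) rfl (by simp)
  obtain ⟨w', hw', hz, hwi'⟩ := red' (P := P) hR
    (n := ![0, 0, 0 + min 0 (P.ord (f X)), 0])
    (ρ := ![3 * P.j p * (P.j t ^ 2 + 1), 3 * (1 - P.j p),
      -(P.j q * σ), -(1 - P.j q)])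
    (by
      intro i
      fin_cases i
      · exact e0
      · exact e1
      · exact (hpc.mul hσ).neg
      · exact hp1.neg) hw hwi
  refine h3 P.κ P.j P.odd σ hσD w' hw' ?_ hwi'
  have hex : ∃ i, w i ≠ 0 := by
    by_contra hcon
    push Not at hcon
    exact hw (funext hcon)
  obtain ⟨i, hi⟩ := hex
  rcases hPn with h | h | h
  · exact Or.inl (hz i 2 hi (Or.inl h))
  · exact Or.inr (hz i 3 hi (Or.inl h))
  · by_cases ha : w 2 = 0
    · exact Or.inl (hz i 2 hi (Or.inl ha))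
    by_cases hb : w 3 = 0
    · exact Or.inr (hz i 3 hi (Or.inl hb))
    rcases lt_trichotomy (P.ord (w 2) - (0 + min 0 (P.ord (f X)))) (P.ord (w 3) - 0)
      with hlt | heq | hgt
    · exact Or.inr (hz 2 3 ha (Or.inr hlt))
    · exfalso; apply h; omega
    · exact Or.inl (hz 3 2 hb (Or.inr hgt))

lemma ro_rat (hQ : S_Q) : RO ℚ := fun L _ f hf => (hQ L f hf).1

end Pool.Agent.N825.WI
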